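import Pool.Agent.W970.Tri.Core

/-!
# The lower bound for triangle dags over the random family, asymptotic form
-/

open Finset Filter

namespace Pool.Agent.W970.Tri

theorem ncard_hit_le {w g K b : ℕ} (hg : 0 < g) (hb : b ≤ w) (hK : K = 2 ^ (w - b))
    (o : Om w g K) : Set.ncard {x : Pt w g | Hit o x} ≤ 2 ^ (w * g - b) := by
  have h := pr_hit_le o
  unfold pr at h
  have hcard : (Fintype.card (Pt w g) : ℝ) = 2 ^ (w * g) := by
    simp [Fintype.card_prod]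
  rw [hcard, div_le_iff₀ (by positivity)] at h
  have h2 : (K : ℝ) * (1 / 2) ^ w * 2 ^ (w * g) = 2 ^ (w * g - b) := by
    rw [hK]
    push_cast
    have h4 : w = (w - b) + b := by omega
    have h5 : w * g = (w * g - b) + b := by
      have : b ≤ w * g := hb.trans (Nat.le_mul_of_pos_right _ hg)
      omega
    have h6 : (2 : ℝ) ^ (w - b) * (1 / 2) ^ w = (1 / 2) ^ b := by
      nth_rewrite 2 [h4]
      rw [pow_add, ← mul_assoc, ← mul_pow]
      norm_num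
    rw [h6]
    nth_rewrite 1 [h5]
    rw [pow_add, mul_comm, mul_assoc, ← mul_pow]
    norm_num
  rw [h2] at h
  exact_mod_cast h

/-- the final estimate -/
theorem final_param {δ : ℝ} (hδ : 0 < δ) {a C n m d r V : ℕ}
    (hC : 16 * ((a : ℝ) + 3) / δ ≤ C) (hC0 : 0 < C) (hm : m ≤ n)
    (hd : d ≤ n ^ a) (hr : r = (4 * m + 2) / (C * (Nat.log 2 n + 1)))
    (hV : V = ⌊(2 : ℝ) ^ (δ / 4 * n)⌋₊)
    (hn : ((a : ℝ) + 3) * ((Nat.log 2 n + 1 : ℕ) : ℝ) + (2 + δ / 8) ≤ δ / 2 * n) :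
    (((d * r) ^ (r + 1) * (3 * V) : ℕ) : ℝ) ≤ (2 : ℝ) ^ (δ * n) := by
  set ℓ := Nat.log 2 n + 1 with hℓ
  have hℓ1 : 1 ≤ ℓ := by omega
  have hnℓ : n < 2 ^ ℓ := lt_two_pow_log n
  have hCpos : (0 : ℝ) < C := by exact_mod_cast hC0
  have hℓpos : (0 : ℝ) < ℓ := by exact_mod_cast hℓ1
  have h1 : d * r ≤ 2 ^ ((a + 3) * ℓ) := by
    have hd' : d ≤ 2 ^ (ℓ * a) := hd.trans (by
      rw [pow_mul]; exact Nat.pow_le_pow_left hnℓ.le a)
    have hr' : r ≤ 2 ^ (ℓ + 2) := by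
      rw [hr]
      refine (Nat.div_le_self _ _).trans ?_
      rw [pow_add]
      omega
    calc d * r ≤ 2 ^ (ℓ * a) * 2 ^ (ℓ + 2) := Nat.mul_le_mul hd' hr'
      _ = 2 ^ (ℓ * a + (ℓ + 2)) := by rw [pow_add 2 (ℓ * a) (ℓ + 2)]
      _ ≤ 2 ^ ((a + 3) * ℓ) := by
        apply Nat.pow_le_pow_right (by norm_num)
        have : (a + 3) * ℓ = ℓ * a + 3 * ℓ := by ring
        omega
  have h2 : (((d * r) ^ (r + 1) : ℕ) : ℝ) ≤ (2 : ℝ) ^ (((a : ℝ) + 3) * ℓ * (r + 1)) := by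
    have : (d * r) ^ (r + 1) ≤ (2 ^ ((a + 3) * ℓ)) ^ (r + 1) := Nat.pow_le_pow_left h1 _
    have h3 : (((d * r) ^ (r + 1) : ℕ) : ℝ) ≤ (2 : ℝ) ^ ((a + 3) * ℓ * (r + 1)) := by
      rw [← pow_mul] at this
      exact_mod_cast this
    refine h3.trans ?_
    apply rpow_two_natCast
    push_cast
    exact le_rfl
  have h4 : ((a : ℝ) + 3) * ℓ * (r + 1) ≤ δ / 4 * n + δ / 8 + ((a : ℝ) + 3) * ℓ := by
    have h5 : (r : ℝ) ≤ (4 * n + 2) / (C * ℓ) := by
      have : (r : ℝ) ≤ ((4 * m + 2 : ℕ) : ℝ) / ((C * ℓ : ℕ) : ℝ) := by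
        rw [hr]
        exact Nat.cast_div_le
      refine this.trans ?_
      push_cast
      apply div_le_div_of_nonneg_right _ (by positivity)
      have : (m : ℝ) ≤ n := by exact_mod_cast hm
      linarith
    have h6 : ((a : ℝ) + 3) * ℓ * r ≤ ((a : ℝ) + 3) / C * (4 * n + 2) := by
      calc ((a : ℝ) + 3) * ℓ * r ≤ ((a : ℝ) + 3) * ℓ * ((4 * n + 2) / (C * ℓ)) :=
            mul_le_mul_of_nonneg_left h5 (by positivity)
        _ = ((a : ℝ) + 3) / C * (4 * n + 2) := by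
            field_simp
    have h7 : ((a : ℝ) + 3) / C ≤ δ / 16 := by
      rw [div_le_iff₀ hCpos]
      rw [div_le_iff₀ hδ] at hC
      linarith
    have h8 : ((a : ℝ) + 3) / C * (4 * n + 2) ≤ δ / 16 * (4 * n + 2) :=
      mul_le_mul_of_nonneg_right h7 (by positivity)
    nlinarith
  have h9 : (V : ℝ) ≤ (2 : ℝ) ^ (δ / 4 * n) := by
    rw [hV]
    exact Nat.floor_le (by positivity)
  have h10 : ((3 * V : ℕ) : ℝ) ≤ (2 : ℝ) ^ (2 + δ / 4 * n) := by
    rw [Real.rpow_add (by norm_num)]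
    push_cast
    have : (2 : ℝ) ^ (2 : ℝ) = 4 := by norm_num
    rw [this]
    have : (0 : ℝ) ≤ (2 : ℝ) ^ (δ / 4 * n) := by positivity
    nlinarith
  calc (((d * r) ^ (r + 1) * (3 * V) : ℕ) : ℝ)
      = (((d * r) ^ (r + 1) : ℕ) : ℝ) * ((3 * V : ℕ) : ℝ) := by push_cast; ring
    _ ≤ (2 : ℝ) ^ (((a : ℝ) + 3) * ℓ * (r + 1)) * (2 : ℝ) ^ (2 + δ / 4 * n) :=
        mul_le_mul h2 h10 (by positivity) (by positivity)
    _ = (2 : ℝ) ^ (((a : ℝ) + 3) * ℓ * (r + 1) + (2 + δ / 4 * n)) := by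
        rw [← Real.rpow_add (by norm_num)]
    _ ≤ (2 : ℝ) ^ (δ * n) := by
        apply Real.rpow_le_rpow_of_exponent_le (by norm_num)
        linarith

/-- **The lower bound for triangle dags.** -/
theorem core {δ : ℝ} (hδ : 0 < δ) (a : ℕ) : ∃ c : ℕ, ∀ᶠ n : ℕ in atTop,
    ∃ (w g K N : ℕ) (ω : Fin N → Om w g K × Om w g K),
      0 < w ∧ 0 < g ∧ 0 < K ∧ w ≤ c * (Nat.log 2 n + 1) ∧ w * g ≤ n ∧ n < w * g + w ∧
      N * K ^ 2 ≤ n ^ c ∧
      (∀ x y, ∃ i, Hit (ω i).1 x ∧ Hit (ω i).2 y) ∧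
      ∀ (d L : ℕ) (lab : ℕ → Lab (Pt w g) (Pt w g)), d ≤ n ^ a →
        IsDag (fun i x => Hit (ω i).1 x) (fun i y => Hit (ω i).2 y) d L lab →
        ∀ i < L, ∀ θ : ℝ,
          (Set.ncard {x | θ < (lab i).a x} : ℝ) ≤
              L * (2 : ℝ) ^ (δ * n) + (2 : ℝ) ^ (w * g) / n ^ a ∨
            (Set.ncard {y | (lab i).b y ≤ θ} : ℝ) ≤ L * (2 : ℝ) ^ (δ * n) := by
  obtain ⟨k, hk⟩ := exists_k hδ
  obtain ⟨R, hR⟩ := exists_nat_ge (8 * (k : ℝ) / δ + 1)
  obtain ⟨C, hC⟩ := exists_nat_ge (16 * ((a : ℝ) + 3) / δ + (a + 5))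
  have hR1 : (1 : ℝ) ≤ R := by
    have : (0 : ℝ) ≤ 8 * (k : ℝ) / δ := by positivity
    linarith
  have hRpos : 0 < R := by
    have : 1 ≤ R := by exact_mod_cast hR1
    omega
  have hkR : (k : ℝ) / R ≤ δ / 8 := by
    rw [div_le_iff₀ (by linarith)]
    have : 8 * (k : ℝ) / δ ≤ R := by linarith
    rw [div_le_iff₀ hδ] at this
    linarith
  have hCa : a + 5 ≤ C := by
    have : (0 : ℝ) ≤ 16 * ((a : ℝ) + 3) / δ := by positivity
    have h : ((a : ℝ) + 5) ≤ C := by linarith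
    exact_mod_cast h
  have hC2 : 16 * ((a : ℝ) + 3) / δ ≤ C := by
    have : (0 : ℝ) ≤ (a : ℝ) + 5 := by positivity
    linarith
  refine ⟨2 * (2 * (R * (4 * C + 4)) + 4), ?_⟩
  have ev1 := ev_log ((a : ℝ) + 3) (2 + δ / 8) (γ := δ / 2) (by positivity)
  have ev2 := ev_log (2 * R * (4 * C + 4)) 0 (γ := 1) (by norm_num)
  filter_upwards [ev1, ev2, eventually_ge_atTop 2] with n hn1 hn2 hn3
  set ℓ := Nat.log 2 n + 1 with hℓ
  have hℓ1 : 1 ≤ ℓ := by omega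
  have hnℓ : n < 2 ^ ℓ := lt_two_pow_log n
  have h2ℓ : 2 ^ ℓ ≤ n ^ 2 := by
    rw [hℓ, pow_succ, sq]
    have h := Nat.pow_log_le_self 2 (show n ≠ 0 by omega)
    exact Nat.mul_le_mul h hn3
  obtain ⟨b, hb⟩ : ∃ b, b = C * ℓ := ⟨_, rfl⟩
  obtain ⟨w, hw⟩ : ∃ w, w = R * (4 * b + 4) := ⟨_, rfl⟩
  have hb0 : 0 < b := by
    rw [hb]
    exact Nat.mul_pos (by omega) (by omega)
  have hbw : b ≤ w := by
    rw [hw]
    calc b ≤ 1 * (4 * b + 4) := by omega
      _ ≤ R * (4 * b + 4) := Nat.mul_le_mul_right _ hRpos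
  have hw0 : 0 < w := by omega
  have hwℓ : w ≤ R * (4 * C + 4) * ℓ := by
    rw [hw, hb, mul_assoc]
    apply Nat.mul_le_mul_left
    nlinarith
  have h2w : 2 * w ≤ n := by
    have h : 2 * (R * (4 * C + 4) * ℓ) ≤ n := by
      have : 2 * (R : ℝ) * (4 * C + 4) * (ℓ : ℝ) ≤ n := by linarith
      have h' : ((2 * (R * (4 * C + 4) * ℓ) : ℕ) : ℝ) ≤ n := by
        push_cast
        linarith
      exact_mod_cast h'
    omega
  obtain ⟨g, hg⟩ : ∃ g, g = n / w := ⟨_, rfl⟩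
  have hg0 : 0 < g := by
    rw [hg]
    exact Nat.div_pos (by omega) hw0
  have : NeZero g := ⟨by omega⟩
  have hwg : w * g ≤ n := by
    rw [hg]
    exact Nat.mul_div_le n w
  have hwg2 : n < w * g + w := by
    rw [hg]
    have := Nat.lt_mul_div_succ n hw0
    rw [mul_add, mul_one] at this
    exact this
  obtain ⟨m, hm⟩ : ∃ m, m = w * g := ⟨_, rfl⟩
  obtain ⟨K, hK⟩ : ∃ K, K = 2 ^ (w - b) := ⟨_, rfl⟩
  have hK0 : 0 < K := by rw [hK]; positivity
  have : NeZero K := ⟨by omega⟩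
  have hmb : 16 * (m + 1) ≤ 2 ^ b := by
    calc 16 * (m + 1) ≤ 16 * 2 ^ ℓ := by omega
      _ = 2 ^ (4 + ℓ) := by
        have h16 : (16 : ℕ) = 2 ^ 4 := by norm_num
        rw [h16, ← pow_add]
      _ ≤ 2 ^ b := by
        apply Nat.pow_le_pow_right (by norm_num)
        rw [hb]
        nlinarith
  obtain ⟨ω, hω1, hω2, hω3⟩ := exists_family (w := w) (g := g) (K := K)
    (N := 2 ^ (2 * b + 3) * (m + 1)) (b := b) (r := (4 * m + 2) / b) (t := 3)
    (ρ := w * g / R) (V := ⌊(2 : ℝ) ^ (δ / 4 * n)⌋₊) hbw hK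
    (ball_param hδ hk hRpos hkR hwg)
    (by rw [← hm]; exact cover_param)
    (by
      have := inter_param (m := m) hg0 hRpos hw hm hb0 hmb
      rw [← hK] at this
      exact this)
  refine ⟨w, g, K, _, ω, hw0, hg0, hK0, ?_, hwg, hwg2, ?_, hω1, ?_⟩
  · refine hwℓ.trans ?_
    apply Nat.mul_le_mul_right
    nlinarith
  · -- number of clauses
    calc 2 ^ (2 * b + 3) * (m + 1) * K ^ 2 = 2 ^ (2 * b + 3 + (w - b) * 2) * (m + 1) := by
          rw [hK, pow_add 2 (2 * b + 3), pow_mul]; ring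
      _ ≤ 2 ^ (2 * w + 3) * 2 ^ ℓ := by
          apply Nat.mul_le_mul
          · apply Nat.pow_le_pow_right (by norm_num)
            omega
          · omega
      _ = 2 ^ (2 * w + 3 + ℓ) := by rw [pow_add 2 (2 * w + 3)]
      _ ≤ 2 ^ (ℓ * (2 * (R * (4 * C + 4)) + 4)) := by
          apply Nat.pow_le_pow_right (by norm_num)
          nlinarith
      _ = (2 ^ ℓ) ^ (2 * (R * (4 * C + 4)) + 4) := by rw [pow_mul]
      _ ≤ (n ^ 2) ^ (2 * (R * (4 * C + 4)) + 4) := Nat.pow_le_pow_left h2ℓ _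
      _ = n ^ (2 * (2 * (R * (4 * C + 4)) + 4)) := by rw [← pow_mul]
  · intro d L lab hd hdag i hi θ
    have hr1 : 1 ≤ (4 * m + 2) / b := by
      rw [Nat.le_div_iff_mul_le hb0]
      have : w ≤ m := by rw [hm]; exact Nat.le_mul_of_pos_right _ hg0
      omega
    have hfin := final_param (d := d) hδ (r := (4 * m + 2) / b)
      (V := ⌊(2 : ℝ) ^ (δ / 4 * n)⌋₊) hC2 (by omega) (by omega : m ≤ n) hd (by rw [hb]) rfl
      (by exact_mod_cast hn1)
    have hbd := hdag.bound hr1 hω2 hω3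
      (fun i => ncard_hit_le hg0 hbw hK (ω i).1) hi θ
    have hrP : (((4 * m + 2) / b * 2 ^ (w * g - b) : ℕ) : ℝ) ≤ (2 : ℝ) ^ (w * g) / n ^ a := by
      have hnpos : (0 : ℝ) < n := by
        have : 0 < n := by omega
        exact_mod_cast this
      rw [le_div_iff₀ (by positivity)]
      have h1 : (4 * m + 2) / b * 2 ^ (w * g - b) * n ^ a ≤ 2 ^ (w * g) := by
        have h2 : (4 * m + 2) / b * n ^ a ≤ 2 ^ b := by
          calc (4 * m + 2) / b * n ^ a ≤ 2 ^ (ℓ + 2) * 2 ^ (ℓ * a) := by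
                apply Nat.mul_le_mul
                · refine (Nat.div_le_self _ _).trans ?_
                  rw [pow_add]
                  omega
                · rw [pow_mul]
                  exact Nat.pow_le_pow_left hnℓ.le a
            _ = 2 ^ (ℓ + 2 + ℓ * a) := by rw [pow_add 2 (ℓ + 2)]
            _ ≤ 2 ^ b := by
              apply Nat.pow_le_pow_right (by norm_num)
              rw [hb]
              have : (a + 5) * ℓ ≤ C * ℓ := Nat.mul_le_mul_right _ hCa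
              nlinarith
        have hbm : b ≤ w * g := hbw.trans (Nat.le_mul_of_pos_right _ hg0)
        calc (4 * m + 2) / b * 2 ^ (w * g - b) * n ^ a =
              ((4 * m + 2) / b * n ^ a) * 2 ^ (w * g - b) := by ring
          _ ≤ 2 ^ b * 2 ^ (w * g - b) := Nat.mul_le_mul_right _ h2
          _ = 2 ^ (w * g) := by
            rw [← pow_add]
            congr 1
            omega
      exact_mod_cast h1
    rcases hbd with h | h
    · left
      calc (Set.ncard {x | θ < (lab i).a x} : ℝ) ≤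
            ((L * ((d * ((4 * m + 2) / b)) ^ ((4 * m + 2) / b + 1) *
              (3 * ⌊(2 : ℝ) ^ (δ / 4 * n)⌋₊)) + (4 * m + 2) / b * 2 ^ (w * g - b) : ℕ) : ℝ) := by
            exact_mod_cast h
        _ = L * (((d * ((4 * m + 2) / b)) ^ ((4 * m + 2) / b + 1) *
              (3 * ⌊(2 : ℝ) ^ (δ / 4 * n)⌋₊) : ℕ) : ℝ) +
              (((4 * m + 2) / b * 2 ^ (w * g - b) : ℕ) : ℝ) := by
            rw [Nat.cast_add, Nat.cast_mul]
        _ ≤ L * (2 : ℝ) ^ (δ * n) + (2 : ℝ) ^ (w * g) / n ^ a :=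
            add_le_add (mul_le_mul_of_nonneg_left hfin (by positivity)) hrP
    · right
      have hfin1 := final_param (d := 1) hδ (r := (4 * m + 2) / b)
        (V := ⌊(2 : ℝ) ^ (δ / 4 * n)⌋₊) hC2 (by omega) (by omega : m ≤ n)
        (Nat.one_le_pow _ _ (by omega)) (by rw [hb]) rfl (by exact_mod_cast hn1)
      rw [one_mul] at hfin1
      calc (Set.ncard {y | (lab i).b y ≤ θ} : ℝ) ≤
            ((L * (((4 * m + 2) / b) ^ ((4 * m + 2) / b + 1) *
              (3 * ⌊(2 : ℝ) ^ (δ / 4 * n)⌋₊)) : ℕ) : ℝ) := by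
            exact_mod_cast h
        _ = L * ((((4 * m + 2) / b) ^ ((4 * m + 2) / b + 1) *
              (3 * ⌊(2 : ℝ) ^ (δ / 4 * n)⌋₊) : ℕ) : ℝ) := by
            rw [Nat.cast_mul]
        _ ≤ L * (2 : ℝ) ^ (δ * n) := mul_le_mul_of_nonneg_left hfin1 (by positivity)

end Pool.Agent.W970.Tri
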