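import Pool.Agent.W970.Tri.CPDefs
import Pool.Agent.W970.Tri.Main

/-!
# Semantic cutting planes: the lower bound
-/

open Finset Filter

namespace Pool.Agent.W970.Tri

theorem splitLine_linear {n : ℕ} (U : Finset (Fin n)) (a : Fin n → ℝ) (b : ℝ) :
    SplitLine U (LinearLine a b) := by
  classical
  refine ⟨fun z => b - ∑ v ∈ U, a v * (if z v = true then 1 else 0),
    fun z => ∑ v ∈ Uᶜ, a v * (if z v = true then 1 else 0), ?_, ?_, ?_⟩
  · intro z z' h
    simp only
    congr 1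
    exact Finset.sum_congr rfl fun v hv => by rw [h v hv]
  · intro z z' h
    exact Finset.sum_congr rfl fun v hv => by rw [h v (Finset.mem_compl.1 hv)]
  · intro z
    unfold LinearLine
    rw [← Finset.sum_add_sum_compl U (fun v => a v * (if z v = true then (1 : ℝ) else 0))]
    constructor <;> intro h <;> linarith

section
variable {w g K N n m : ℕ} (ω : Fin N → Om w g K × Om w g K)

/-- variables of the first half -/
def eX (h : w * g ≤ m) (hm : m + m ≤ n) (p : Fin w × Fin g) : Fin n :=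
  ⟨(finProdFinEquiv p : Fin (w * g)).1, by
    have := (finProdFinEquiv p : Fin (w * g)).2
    omega⟩

/-- variables of the second half -/
def eY (h : w * g ≤ m) (hm : m + m ≤ n) (p : Fin w × Fin g) : Fin n :=
  ⟨m + (finProdFinEquiv p : Fin (w * g)).1, by
    have := (finProdFinEquiv p : Fin (w * g)).2
    omega⟩

theorem eX_inj (h : w * g ≤ m) (hm : m + m ≤ n) {p q : Fin w × Fin g}
    (e : eX h hm p = eX h hm q) : p = q := by
  unfold eX at e
  rw [Fin.mk.injEq] at e
  exact finProdFinEquiv.injective (Fin.ext e)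

theorem eY_inj (h : w * g ≤ m) (hm : m + m ≤ n) {p q : Fin w × Fin g}
    (e : eY h hm p = eY h hm q) : p = q := by
  unfold eY at e
  rw [Fin.mk.injEq] at e
  exact finProdFinEquiv.injective (Fin.ext (by omega))

theorem eX_ne_eY (h : w * g ≤ m) (hm : m + m ≤ n) (p q : Fin w × Fin g) :
    eX h hm p ≠ eY h hm q := by
  intro e
  unfold eX eY at e
  rw [Fin.mk.injEq] at e
  have := (finProdFinEquiv p : Fin (w * g)).2
  omega

/-- the clauses -/
def cl (h : w * g ≤ m) (hm : m + m ≤ n) (i : Fin N) (l l' : Fin K) : Clause n :=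
  (Finset.univ.image fun j : Fin w => (eX h hm (j, (ω i).1.1 j), !((ω i).1.2 l j))) ∪
  (Finset.univ.image fun j : Fin w => (eY h hm (j, (ω i).2.1 j), !((ω i).2.2 l' j)))

/-- the formula -/
def cnf (h : w * g ≤ m) (hm : m + m ≤ n) : Finset (Clause n) :=
  Finset.univ.image fun q : Fin N × Fin K × Fin K => cl ω h hm q.1 q.2.1 q.2.2

theorem card_cnf (h : w * g ≤ m) (hm : m + m ≤ n) : (cnf ω h hm).card ≤ N * K ^ 2 := by
  refine Finset.card_image_le.trans ?_
  simp [sq]

theorem card_cl (h : w * g ≤ m) (hm : m + m ≤ n) (i : Fin N) (l l' : Fin K) :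
    (cl ω h hm i l l').card ≤ 2 * w := by
  refine (Finset.card_union_le _ _).trans ?_
  have h1 := Finset.card_image_le (s := (Finset.univ : Finset (Fin w)))
    (f := fun j : Fin w => (eX h hm (j, (ω i).1.1 j), !((ω i).1.2 l j)))
  have h2 := Finset.card_image_le (s := (Finset.univ : Finset (Fin w)))
    (f := fun j : Fin w => (eY h hm (j, (ω i).2.1 j), !((ω i).2.2 l' j)))
  rw [Finset.card_univ, Fintype.card_fin] at h1 h2
  omega

theorem cl_holds (h : w * g ≤ m) (hm : m + m ≤ n) (i : Fin N) (l l' : Fin K)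
    (z : Fin n → Bool) : (cl ω h hm i l l').Holds z ↔
      ¬ ((∀ j, z (eX h hm (j, (ω i).1.1 j)) = (ω i).1.2 l j) ∧
        (∀ j, z (eY h hm (j, (ω i).2.1 j)) = (ω i).2.2 l' j)) := by
  unfold Clause.Holds cl
  constructor
  · rintro ⟨q, hq, hz⟩ ⟨h1, h2⟩
    rw [Finset.mem_union, Finset.mem_image, Finset.mem_image] at hq
    rcases hq with ⟨j, _, rfl⟩ | ⟨j, _, rfl⟩
    · simp only [h1 j] at hz
      revert hz
      cases (ω i).1.2 l j <;> simp
    · simp only [h2 j] at hz
      revert hz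
      cases (ω i).2.2 l' j <;> simp
  · intro hn
    rw [not_and_or] at hn
    push Not at hn
    rcases hn with ⟨j, hj⟩ | ⟨j, hj⟩
    · refine ⟨_, Finset.mem_union_left _ (Finset.mem_image_of_mem _ (Finset.mem_univ j)), ?_⟩
      simp only
      revert hj
      cases z (eX h hm (j, (ω i).1.1 j)) <;> cases (ω i).1.2 l j <;> simp
    · refine ⟨_, Finset.mem_union_right _ (Finset.mem_image_of_mem _ (Finset.mem_univ j)), ?_⟩
      simp only
      revert hj
      cases z (eY h hm (j, (ω i).2.1 j)) <;> cases (ω i).2.2 l' j <;> simp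

theorem cnf_unsat (h : w * g ≤ m) (hm : m + m ≤ n)
    (hω : ∀ x y, ∃ i, Hit (ω i).1 x ∧ Hit (ω i).2 y) (z : Fin n → Bool) :
    ∃ C ∈ cnf ω h hm, ¬ C.Holds z := by
  obtain ⟨i, ⟨l, hl⟩, ⟨l', hl'⟩⟩ := hω (fun p => z (eX h hm p)) (fun p => z (eY h hm p))
  refine ⟨_, Finset.mem_image_of_mem _ (Finset.mem_univ (i, l, l')), ?_⟩
  rw [cl_holds, not_not]
  exact ⟨hl, hl'⟩

/-- the assignment of a pair of points -/
noncomputable def asg (h : w * g ≤ m) (hm : m + m ≤ n) (x y : Pt w g) : Fin n → Bool :=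
  open Classical in fun v =>
    if hv : ∃ p, eX h hm p = v then x hv.choose
    else if hv : ∃ p, eY h hm p = v then y hv.choose else false

theorem asg_eX (h : w * g ≤ m) (hm : m + m ≤ n) (x y : Pt w g) (p : Fin w × Fin g) :
    asg h hm x y (eX h hm p) = x p := by
  classical
  have hv : ∃ p', eX h hm p' = eX h hm p := ⟨p, rfl⟩
  unfold asg
  rw [dif_pos hv]
  congr 1
  exact eX_inj h hm hv.choose_spec

theorem asg_eY (h : w * g ≤ m) (hm : m + m ≤ n) (x y : Pt w g) (p : Fin w × Fin g) :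
    asg h hm x y (eY h hm p) = y p := by
  classical
  have hv0 : ¬ ∃ p', eX h hm p' = eY h hm p := fun ⟨p', h'⟩ => eX_ne_eY h hm p' p h'
  have hv : ∃ p', eY h hm p' = eY h hm p := ⟨p, rfl⟩
  unfold asg
  rw [dif_neg hv0, dif_pos hv]
  congr 1
  exact eY_inj h hm hv.choose_spec

/-- the first half of the variables -/
def half (n m : ℕ) : Finset (Fin n) := Finset.univ.filter fun v => v.1 < m

theorem asg_half (h : w * g ≤ m) (hm : m + m ≤ n) (x y y' : Pt w g) (v : Fin n)
    (hv : v ∈ half n m) : asg h hm x y v = asg h hm x y' v := by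
  classical
  unfold asg
  by_cases h1 : ∃ p, eX h hm p = v
  · rw [dif_pos h1, dif_pos h1]
  · rw [dif_neg h1, dif_neg h1]
    have h2 : ¬ ∃ p, eY h hm p = v := by
      rintro ⟨p, rfl⟩
      have := (Finset.mem_filter.1 hv).2
      simp only [eY] at this
      omega
    rw [dif_neg h2, dif_neg h2]

theorem asg_not_half (h : w * g ≤ m) (hm : m + m ≤ n) (x x' y : Pt w g) (v : Fin n)
    (hv : v ∉ half n m) : asg h hm x y v = asg h hm x' y v := by
  classical
  unfold asg
  have h1 : ¬ ∃ p, eX h hm p = v := by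
    rintro ⟨p, rfl⟩
    apply hv
    refine Finset.mem_filter.2 ⟨Finset.mem_univ _, ?_⟩
    have := (finProdFinEquiv p : Fin (w * g)).2
    simp only [eX]
    omega
  rw [dif_neg h1, dif_neg h1]

/-- A refutation with split lines gives a triangle dag. -/
theorem isDag_of_refutation (h : w * g ≤ m) (hm : m + m ≤ n) {d S : ℕ}
    {L : ℕ → (Fin n → Bool) → Prop} (hL : IsRefutation d (cnf ω h hm) S L)
    (hsplit : ∀ g' < S, SplitLine (half n m) (L g')) :
    ∃ lab : ℕ → Lab (Pt w g) (Pt w g),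
      IsDag (fun i x => Hit (ω i).1 x) (fun i y => Hit (ω i).2 y) d S lab ∧
      ∀ g' < S, ∀ x y, (lab g').b y < (lab g').a x ↔ ¬ L g' (asg h hm x y) := by
  classical
  have hex : ∀ g', ∃ p : Lab (Pt w g) (Pt w g), g' < S →
      ∀ x y, p.b y < p.a x ↔ ¬ L g' (asg h hm x y) := by
    intro g'
    by_cases hg' : g' < S
    · obtain ⟨f, k, hf, hk, hfk⟩ := hsplit g' hg'
      refine ⟨⟨fun x => f (asg h hm x fun _ => false), fun y => k (asg h hm (fun _ => false) y)⟩,
        fun _ x y => ?_⟩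
      have e1 : f (asg h hm x fun _ => false) = f (asg h hm x y) :=
        hf _ _ fun v hv => asg_half h hm _ _ _ v hv
      have e2 : k (asg h hm (fun _ => false) y) = k (asg h hm x y) :=
        hk _ _ fun v hv => asg_not_half h hm _ _ _ v hv
      simp only [e1, e2]
      rw [hfk]
      exact not_le.symm
    · exact ⟨⟨fun _ => 0, fun _ => 0⟩, fun h => absurd h hg'⟩
  choose lab hlab using hex
  refine ⟨lab, ?_, fun g' hg' => hlab g' hg'⟩
  -- labels of the clauses
  have hcl : ∀ C ∈ cnf ω h hm, ∃ p : Lab (Pt w g) (Pt w g),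
      IsLeaf (fun i x => Hit (ω i).1 x) (fun i y => Hit (ω i).2 y) p ∧
      ∀ x y, p.b y < p.a x ↔ ¬ C.Holds (asg h hm x y) := by
    intro C hC
    obtain ⟨⟨i, l, l'⟩, _, rfl⟩ := Finset.mem_image.1 hC
    have key : ∀ x y : Pt w g, (((if ∀ j, y (j, (ω i).2.1 j) = (ω i).2.2 l' j then (0 : ℝ) else 1) <
        (if ∀ j, x (j, (ω i).1.1 j) = (ω i).1.2 l j then (1 : ℝ) else 0)) ↔
        ((∀ j, x (j, (ω i).1.1 j) = (ω i).1.2 l j) ∧
        (∀ j, y (j, (ω i).2.1 j) = (ω i).2.2 l' j))) := by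
      intro x y
      split_ifs with h1 h2 h2 <;> simp [h1, h2]
    refine ⟨⟨fun x => if ∀ j, x (j, (ω i).1.1 j) = (ω i).1.2 l j then 1 else 0,
      fun y => if ∀ j, y (j, (ω i).2.1 j) = (ω i).2.2 l' j then 0 else 1⟩, ?_, ?_⟩
    · refine ⟨i, fun x y hxy => ?_⟩
      obtain ⟨h1, h2⟩ := (key x y).1 hxy
      exact ⟨⟨l, h1⟩, ⟨l', h2⟩⟩
    · intro x y
      simp only
      rw [key, cl_holds, not_not]
      simp only [asg_eX, asg_eY]
  have hne : Nonempty (Lab (Pt w g) (Pt w g)) := ⟨⟨fun _ => 0, fun _ => 0⟩⟩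
  choose! lcl hlcl1 hlcl2 using hcl
  intro g' hg'
  obtain ⟨A, B, hA, hB, hcard, hinf⟩ := hL.1 g' hg'
  refine ⟨(A.disjSum B).card, fun q => Sum.elim lab lcl ((A.disjSum B).equivFin.symm q).1,
    by rwa [Finset.card_disjSum], ?_, ?_⟩
  · intro q
    obtain ⟨s, hs⟩ : ∃ s, s = ((A.disjSum B).equivFin.symm q).1 := ⟨_, rfl⟩
    have hmem : s ∈ A.disjSum B := by rw [hs]; exact ((A.disjSum B).equivFin.symm q).2
    simp only
    rw [← hs]
    rcases Finset.mem_disjSum.1 hmem with ⟨t, ht, rfl⟩ | ⟨C, hC, rfl⟩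
    · left
      exact ⟨t, hA t ht, rfl⟩
    · right
      exact hlcl1 C (hB hC)
  · intro x y hxy
    by_contra hcon
    push Not at hcon
    have hcon' : ∀ s ∈ A.disjSum B, (Sum.elim lab lcl s).a x ≤ (Sum.elim lab lcl s).b y := by
      intro s hs
      have := hcon ((A.disjSum B).equivFin ⟨s, hs⟩)
      simpa using this
    rw [hlab g' hg'] at hxy
    apply hxy
    apply hinf
    · intro t ht
      have h1 := hcon' (Sum.inl t) (Finset.inl_mem_disjSum.2 ht)
      by_contra h2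
      have h3 := (hlab t ((hA t ht).trans hg') x y).2 h2
      exact absurd h3 (not_lt.2 h1)
    · intro C hC
      have h1 := hcon' (Sum.inr C) (Finset.inr_mem_disjSum.2 hC)
      by_contra h2
      have h3 := (hlcl2 C (hB hC) x y).2 h2
      exact absurd h3 (not_lt.2 h1)

end

/-- **The lower bound for refutations with split lines.** -/
theorem cp_lower {δ : ℝ} (hδ : 0 < δ) (a : ℕ) : ∃ c : ℕ, ∀ᶠ n : ℕ in atTop,
    ∃ (U : Finset (Fin n)) (F : Finset (Clause n)),
      F.card ≤ n ^ c ∧ (∀ C ∈ F, C.card ≤ c * (Nat.log 2 n + 1)) ∧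
      (∀ z, ∃ C ∈ F, ¬ C.Holds z) ∧
      ∀ (N : ℕ) (L : ℕ → (Fin n → Bool) → Prop), IsRefutation (n ^ a) F N L →
        (∀ g < N, SplitLine U (L g)) → (2 : ℝ) ^ ((1 / 2 - δ) * n) ≤ N := by
  obtain ⟨c, hc⟩ := core (δ := δ / 2) (by positivity) (2 * a + 1)
  refine ⟨2 * c, ?_⟩
  have htend : Tendsto (fun n : ℕ => n / 2) atTop atTop :=
    Nat.tendsto_div_const_atTop (by norm_num)
  have hc' := htend.eventually hc
  have ev1 := ev_log (c : ℝ) 3 (γ := δ / 2) (by positivity)
  filter_upwards [hc', ev1, eventually_ge_atTop 10] with n hn hn1 hn2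
  obtain ⟨w, g, K, N, ω, hw0, hg0, hK0, hwc, hwg, hwg2, hNK, hcov, hdag⟩ := hn
  set m := n / 2 with hm
  have hmn : m + m ≤ n := by omega
  have hm4 : 4 ≤ m := by omega
  have hlog : Nat.log 2 m ≤ Nat.log 2 n := Nat.log_mono_right (by omega)
  refine ⟨half n m, cnf ω hwg hmn, ?_, ?_, cnf_unsat ω hwg hmn hcov, ?_⟩
  · calc (cnf ω hwg hmn).card ≤ N * K ^ 2 := card_cnf ω hwg hmn
      _ ≤ m ^ c := hNK
      _ ≤ n ^ c := Nat.pow_le_pow_left (by omega) c
      _ ≤ n ^ (2 * c) := Nat.pow_le_pow_right (by omega) (by omega)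
  · intro C hC
    obtain ⟨⟨i, l, l'⟩, _, rfl⟩ := Finset.mem_image.1 hC
    calc _ ≤ 2 * w := card_cl ω hwg hmn i l l'
      _ ≤ 2 * (c * (Nat.log 2 m + 1)) := Nat.mul_le_mul_left _ hwc
      _ ≤ 2 * (c * (Nat.log 2 n + 1)) := by
        apply Nat.mul_le_mul_left
        apply Nat.mul_le_mul_left
        omega
      _ = 2 * c * (Nat.log 2 n + 1) := by ring
  · intro S L hL hsplit
    obtain ⟨lab, hd, hlab⟩ := isDag_of_refutation ω hwg hmn hL hsplit
    obtain ⟨_, hS0, hlast⟩ := hL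
    -- the threshold
    obtain ⟨y0, _, hy0⟩ := (Finset.univ : Finset (Pt w g)).exists_max_image
      (fun y => (lab (S - 1)).b y) ⟨fun _ => false, Finset.mem_univ _⟩
    have hX : {x | (lab (S - 1)).b y0 < (lab (S - 1)).a x} = Set.univ := by
      refine Set.eq_univ_of_forall fun x => ?_
      exact (hlab (S - 1) (by omega) x y0).2 (hlast _)
    have hY : {y | (lab (S - 1)).b y ≤ (lab (S - 1)).b y0} = Set.univ := by
      refine Set.eq_univ_of_forall fun y => ?_
      exact hy0 y (Finset.mem_univ _)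
    have hfan : n ^ a ≤ m ^ (2 * a + 1) := by
      have h1 : n ≤ m ^ 2 := by nlinarith [Nat.lt_succ_iff.1 (show n < 2 * m + 1 + 1 by omega)]
      calc n ^ a ≤ (m ^ 2) ^ a := Nat.pow_le_pow_left h1 a
        _ = m ^ (2 * a) := by rw [← pow_mul]
        _ ≤ m ^ (2 * a + 1) := Nat.pow_le_pow_right (by omega) (by omega)
    have hbd := hdag (n ^ a) S lab hfan hd (S - 1) (by omega) ((lab (S - 1)).b y0)
    have hcard : (Set.ncard (Set.univ : Set (Pt w g)) : ℝ) = 2 ^ (w * g) := by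
      rw [Set.ncard_univ, Nat.card_eq_fintype_card]
      simp [Fintype.card_prod]
    rw [hX, hY, hcard] at hbd
    have hkey : (1 : ℝ) / 2 * 2 ^ (w * g) ≤ S * (2 : ℝ) ^ (δ / 2 * m) := by
      rcases hbd with hbd | hbd
      · have h1 : (2 : ℝ) ^ (w * g) / (m : ℝ) ^ (2 * a + 1) ≤ 1 / 2 * 2 ^ (w * g) := by
          rw [div_le_iff₀ (by positivity)]
          have h2 : (2 : ℝ) ≤ (m : ℝ) ^ (2 * a + 1) := by
            have h3 : (1 : ℝ) ≤ (m : ℝ) ^ (2 * a) := by
              apply one_le_pow₀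
              have : 1 ≤ m := by omega
              exact_mod_cast this
            have h4 : (4 : ℝ) ≤ m := by exact_mod_cast hm4
            rw [pow_succ]
            nlinarith
          have h5 : (0 : ℝ) < 2 ^ (w * g) := by positivity
          nlinarith
        linarith
      · have h5 : (0 : ℝ) < 2 ^ (w * g) := by positivity
        linarith
    have hexp : (1 : ℝ) + (1 / 2 - δ) * n + δ / 2 * m ≤ (w * g : ℕ) := by
      have h1 : (m : ℝ) ≤ (w * g : ℕ) + w := by
        have : m ≤ w * g + w := by omega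
        exact_mod_cast this
      have h2 : (w : ℝ) ≤ c * ((Nat.log 2 n + 1 : ℕ) : ℝ) := by
        have : w ≤ c * (Nat.log 2 n + 1) := hwc.trans (Nat.mul_le_mul_left _ (by omega))
        exact_mod_cast this
      have h3 : (n : ℝ) ≤ 2 * m + 1 := by
        have : n ≤ 2 * m + 1 := by omega
        exact_mod_cast this
      have h4 : (m : ℝ) * 2 ≤ n := by
        have : m * 2 ≤ n := by omega
        exact_mod_cast this
      have h6 : δ / 2 * m ≤ δ / 2 * n := by
        apply mul_le_mul_of_nonneg_left _ (by positivity)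
        have : (0 : ℝ) ≤ m := by positivity
        linarith
      nlinarith
    have h3 : (2 : ℝ) * 2 ^ ((1 / 2 - δ) * n) * (2 : ℝ) ^ (δ / 2 * m) ≤ 2 ^ (w * g) := by
      have h4 : (2 : ℝ) * 2 ^ ((1 / 2 - δ) * n) * (2 : ℝ) ^ (δ / 2 * m) =
          (2 : ℝ) ^ ((1 : ℝ) + (1 / 2 - δ) * n + δ / 2 * m) := by
        rw [Real.rpow_add (by norm_num), Real.rpow_add (by norm_num), Real.rpow_one]
      rw [h4, ← Real.rpow_natCast]
      exact Real.rpow_le_rpow_of_exponent_le (by norm_num) hexp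
    have hq : (0 : ℝ) < (2 : ℝ) ^ (δ / 2 * m) := by positivity
    have h5 : (2 : ℝ) ^ ((1 / 2 - δ) * n) * (2 : ℝ) ^ (δ / 2 * m) ≤
        S * (2 : ℝ) ^ (δ / 2 * m) := by
      linarith
    exact le_of_mul_le_mul_right h5 hq

end Pool.Agent.W970.Tri
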