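import Mathlib

/-!
# Semantic refutations of CNF formulas
-/

namespace Pool.Agent.W970.Tri

/-- A clause over the variables `Fin n`: a set of literals; the literal `(v, b)` is true under the
assignment `z` when `z v = b`. -/
abbrev Clause (n : ℕ) := Finset (Fin n × Bool)

/-- the clause holds under the assignment -/
def Clause.Holds {n : ℕ} (C : Clause n) (z : Fin n → Bool) : Prop := ∃ l ∈ C, z l.1 = l.2

/-- The sequence `L 0, ..., L (N - 1)` of lines (each line is the set of the assignments for which
it holds) is a refutation of the CNF formula `F`: every line is implied by at most `d` premises,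
each of them an earlier line or a clause of `F`, and the last line never holds. -/
def IsRefutation {n : ℕ} (d : ℕ) (F : Finset (Clause n)) (N : ℕ)
    (L : ℕ → (Fin n → Bool) → Prop) : Prop :=
  (∀ g < N, ∃ (S : Finset ℕ) (T : Finset (Clause n)), (∀ h ∈ S, h < g) ∧ T ⊆ F ∧
    S.card + T.card ≤ d ∧ ∀ z, (∀ h ∈ S, L h z) → (∀ C ∈ T, C.Holds z) → L g z) ∧
  0 < N ∧ ∀ z, ¬ L (N - 1) z

/-- The line holds for the assignment `z` if and only if `f z ≤ g z`, where the real number `f z`
depends only on the values of the variables in `U` and `g z` only on the values of the others. -/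
def SplitLine {n : ℕ} (U : Finset (Fin n)) (P : (Fin n → Bool) → Prop) : Prop :=
  ∃ f g : (Fin n → Bool) → ℝ,
    (∀ z z' : Fin n → Bool, (∀ v ∈ U, z v = z' v) → f z = f z') ∧
    (∀ z z' : Fin n → Bool, (∀ v ∉ U, z v = z' v) → g z = g z') ∧
    ∀ z, P z ↔ f z ≤ g z

/-- The linear inequality `∑ a v * z v ≥ b` (with `z v` read as `0` or `1`). -/
def LinearLine {n : ℕ} (a : Fin n → ℝ) (b : ℝ) : (Fin n → Bool) → Prop := fun z =>
  b ≤ ∑ v, a v * (if z v = true then 1 else 0)

end Pool.Agent.W970.Tri
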