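import Mathlib

/-!
# Circuits of real gates
-/

namespace Pool.Agent.W970.Tri

/-- A circuit of real gates over the Boolean input variables `ι`: the gates are numbered
`0, 1, ..., size - 1`; the gate `g` reads `fanin g` wires, each of them an input variable or a gate
with a smaller number, and computes the function `fn g` of real numbers. -/
structure RealCircuit (ι : Type) where
  /-- the number of gates -/
  size : ℕ
  /-- the number of wires which enter a gate -/
  fanin : ℕ → ℕ
  /-- the wires which enter a gate -/
  wire : (g : ℕ) → Fin (fanin g) → ι ⊕ Fin g
  /-- the function computed by a gate -/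
  fn : (g : ℕ) → (Fin (fanin g) → ℝ) → ℝ

/-- The value of the gate `g` on the input `x`; the input bits are read as the numbers `0`, `1`. -/
noncomputable def RealCircuit.val {ι : Type} (C : RealCircuit ι) (x : ι → Bool) (g : ℕ) : ℝ :=
  C.fn g fun h => Sum.elim (fun i => if x i = true then 1 else 0)
    (fun g' : Fin g => C.val x g') (C.wire g h)
termination_by g
decreasing_by exact g'.2

/-- All gates are monotone (nondecreasing in every argument) and read at most `d` wires. -/
def RealCircuit.IsMono {ι : Type} (C : RealCircuit ι) (d : ℕ) : Prop :=
  ∀ g < C.size, C.fanin g ≤ d ∧ Monotone (C.fn g)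

/-- The circuit accepts the input `x` if the value of its last gate is positive. -/
def RealCircuit.Accepts {ι : Type} (C : RealCircuit ι) (x : ι → Bool) : Prop :=
  0 < C.size ∧ 0 < C.val x (C.size - 1)

open Classical in
/-- The probability that the random circuit `C` (`C ρ` with probability `p ρ`) accepts `x`. -/
noncomputable def acceptProb {ι R : Type} [Fintype R] (p : R → ℝ) (C : R → RealCircuit ι)
    (x : ι → Bool) : ℝ :=
  ∑ ρ, if (C ρ).Accepts x then p ρ else 0

end Pool.Agent.W970.Tri
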