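import Pool.Agent.W970.Tri.Sat

/-!
# Circuits of monotone real gates for CNF-SAT: the lower bound
-/

open Finset Filter Pool.Agent.H559R4

namespace Pool.Agent.W970.Tri

theorem sum_acceptProb {X ι R : Type} [Fintype X] [Fintype R]
    (p : R → ℝ) (C : R → RealCircuit ι) (F : X → ι → Bool) :
    ∑ x, acceptProb p C (F x) =
      ∑ ρ, p ρ * (Set.ncard {x | (C ρ).Accepts (F x)} : ℝ) := by
  classical
  unfold acceptProb
  rw [Finset.sum_comm]
  apply Finset.sum_congr rfl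
  intro ρ _
  rw [Set.ncard_eq_toFinset_card', ← Finset.sum_filter, Finset.sum_const, nsmul_eq_mul, mul_comm]
  congr 3
  ext; simp

/-- averaging over the tests -/
theorem averaging {X Y ι R : Type} [Fintype X] [Fintype Y] [Fintype R]
    {p : R → ℝ} {C : R → RealCircuit ι} {F : X → ι → Bool} {G : Y → ι → Bool} {ε : ℝ}
    (hp : ∀ ρ, 0 ≤ p ρ) (hp1 : ∑ ρ, p ρ = 1)
    (h : ∀ x y, ε ≤ acceptProb p C (F x) - acceptProb p C (G y)) :
    ∃ ρ, ε * (Fintype.card X * Fintype.card Y) ≤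
      (Set.ncard {x | (C ρ).Accepts (F x)} : ℝ) * Fintype.card Y -
        Fintype.card X * (Set.ncard {y | (C ρ).Accepts (G y)} : ℝ) := by
  classical
  by_contra hcon
  push Not at hcon
  have h1 : ∑ ρ, p ρ * ((Set.ncard {x | (C ρ).Accepts (F x)} : ℝ) * Fintype.card Y -
        Fintype.card X * (Set.ncard {y | (C ρ).Accepts (G y)} : ℝ)) <
      ∑ ρ, p ρ * (ε * (Fintype.card X * Fintype.card Y)) := by
    apply Finset.sum_lt_sum
    · intro ρ _
      exact mul_le_mul_of_nonneg_left (hcon ρ).le (hp ρ)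
    · have : ∃ ρ, 0 < p ρ := by
        by_contra hc
        push Not at hc
        have : ∑ ρ, p ρ ≤ 0 := Finset.sum_nonpos fun ρ _ => hc ρ
        linarith
      obtain ⟨ρ, hρ⟩ := this
      exact ⟨ρ, Finset.mem_univ _, mul_lt_mul_of_pos_left (hcon ρ) hρ⟩
  rw [← Finset.sum_mul, hp1, one_mul] at h1
  have h2 : ∑ x : X, ∑ y : Y, (acceptProb p C (F x) - acceptProb p C (G y)) =
      ∑ ρ, p ρ * ((Set.ncard {x | (C ρ).Accepts (F x)} : ℝ) * Fintype.card Y -
        Fintype.card X * (Set.ncard {y | (C ρ).Accepts (G y)} : ℝ)) := by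
    have e1 : ∑ x : X, ∑ y : Y, (acceptProb p C (F x) - acceptProb p C (G y)) =
        Fintype.card Y * ∑ x, acceptProb p C (F x) -
          Fintype.card X * ∑ y, acceptProb p C (G y) := by
      simp only [Finset.sum_sub_distrib, Finset.sum_const, Finset.card_univ, nsmul_eq_mul,
        Finset.mul_sum]
    rw [e1, sum_acceptProb, sum_acceptProb, Finset.mul_sum, Finset.mul_sum,
      ← Finset.sum_sub_distrib]
    apply Finset.sum_congr rfl
    intro ρ _
    ring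
  have h3 : ∑ _x : X, ∑ _y : Y, ε ≤
      ∑ x : X, ∑ y : Y, (acceptProb p C (F x) - acceptProb p C (G y)) :=
    Finset.sum_le_sum fun x _ => Finset.sum_le_sum fun y _ => h x y
  simp only [Finset.sum_const, Finset.card_univ, nsmul_eq_mul] at h3
  linarith

/-- **The strong exponential time hypothesis for random circuits of monotone real gates.** -/
theorem sat_lower {δ : ℝ} (hδ : 0 < δ) (a : ℕ) : ∃ c : ℕ, ∀ᶠ n : ℕ in atTop, ∀ M : ℕ,
    n ^ c ≤ M → ∀ (R : Type) [Fintype R] (p : R → ℝ)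
      (C : R → RealCircuit (Fin M × Fin n × Bool)) (S : ℕ) (ε : ℝ),
      (∀ ρ, 0 ≤ p ρ) → ∑ ρ, p ρ = 1 →
      (∀ ρ, (C ρ).size ≤ S ∧ (C ρ).IsMono (n ^ a)) →
      1 / (n : ℝ) ^ a ≤ ε →
      (∀ F G, Sat F → ¬ Sat G → ε ≤ acceptProb p C F - acceptProb p C G) →
      ε * (2 : ℝ) ^ ((1 - δ) * n) ≤ S := by
  obtain ⟨c, hc⟩ := core (δ := δ / 4) (by positivity) (a + 1)
  refine ⟨c, ?_⟩
  have ev1 := ev_log (c : ℝ) 1 (γ := δ / 2) (by positivity)
  filter_upwards [hc, ev1, eventually_ge_atTop 2] with n hn hn1 hn2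
  intro M hM R _ p C S ε hp hp1 hC hε h
  obtain ⟨w, g, K, N, ω, hw0, hg0, hK0, hwc, hwg, hwg2, hNK, hcov, hdag⟩ := hn
  have hn0 : 0 < n := by omega
  have hnpos : (0 : ℝ) < n := by exact_mod_cast hn0
  have hNKM : N * K ≤ M := by
    refine le_trans ?_ (hNK.trans hM)
    apply Nat.mul_le_mul_left
    nlinarith
  have hNne : Nonempty (Fin N) := by
    obtain ⟨i, _⟩ := hcov (fun _ => false) (fun _ => false)
    exact ⟨i⟩
  have hεpos : 0 < ε := lt_of_lt_of_le (by positivity) hε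
  obtain ⟨ρ, hρ⟩ := averaging (F := matP ω hwg) (G := matN ω hwg) hp hp1
    (fun x y => h _ _ (sat_matP ω hwg hn0 x) (not_sat_matN ω hwg hNKM hcov y))
  obtain ⟨hsize, hmono⟩ := hC ρ
  have hcard : (Fintype.card (Pt w g) : ℝ) = 2 ^ (w * g) := by
    simp [Fintype.card_prod]
  rw [hcard] at hρ
  set m := w * g with hm
  have h2m : (0 : ℝ) < 2 ^ m := by positivity
  -- the set of rejected negative tests
  have hcompl := Set.ncard_add_ncard_compl {y | (C ρ).Accepts (matN ω hwg y)}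
  rw [Nat.card_eq_fintype_card] at hcompl
  have hY : (Set.ncard {y | (C ρ).Accepts (matN ω hwg y)} : ℝ) +
      Set.ncard {y | (C ρ).Accepts (matN ω hwg y)}ᶜ = 2 ^ m := by
    rw [← hcard]
    exact_mod_cast hcompl
  have hXle : (Set.ncard {x | (C ρ).Accepts (matP ω hwg x)} : ℝ) ≤ 2 ^ m := by
    rw [← hcard]
    have := Set.ncard_le_card {x | (C ρ).Accepts (matP ω hwg x)}
    rw [Nat.card_eq_fintype_card] at this
    exact_mod_cast this
  have hρ' : ε * 2 ^ m ≤ (Set.ncard {x | (C ρ).Accepts (matP ω hwg x)} : ℝ) -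
      (Set.ncard {y | (C ρ).Accepts (matN ω hwg y)} : ℝ) := by
    have : ε * 2 ^ m * 2 ^ m ≤ ((Set.ncard {x | (C ρ).Accepts (matP ω hwg x)} : ℝ) -
      (Set.ncard {y | (C ρ).Accepts (matN ω hwg y)} : ℝ)) * 2 ^ m := by
      nlinarith
    exact le_of_mul_le_mul_right this h2m
  have hXge : ε * 2 ^ m ≤ (Set.ncard {x | (C ρ).Accepts (matP ω hwg x)} : ℝ) := by
    have : (0 : ℝ) ≤ Set.ncard {y | (C ρ).Accepts (matN ω hwg y)} := by positivity
    linarith
  have hYge : ε * 2 ^ m ≤ (Set.ncard {y | (C ρ).Accepts (matN ω hwg y)}ᶜ : ℝ) := by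
    linarith
  have hεm : 0 < ε * 2 ^ m := by positivity
  -- the circuit is not empty
  have hsz : 0 < (C ρ).size := by
    by_contra h0
    have : {x | (C ρ).Accepts (matP ω hwg x)} = ∅ := by
      refine Set.eq_empty_of_forall_notMem ?_
      intro x hx
      exact h0 hx.1
    rw [this] at hXge
    simp at hXge
    linarith
  have hd := hdag (n ^ a) (C ρ).size
    (fun g => ⟨fun x => (C ρ).val (matP ω hwg x) g, fun y => (C ρ).val (matN ω hwg y) g⟩)
    (Nat.pow_le_pow_right hn0 (by omega))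
    (isDag_of_circuit (C ρ) hmono (matP ω hwg) (matN ω hwg) fun q => mat_leaf ω hwg q hNne)
    ((C ρ).size - 1) (by omega) 0
  have hX' : {x | (0 : ℝ) < (C ρ).val (matP ω hwg x) ((C ρ).size - 1)} =
      {x | (C ρ).Accepts (matP ω hwg x)} := by
    ext x
    exact ⟨fun h => ⟨hsz, h⟩, fun h => h.2⟩
  have hY' : {y | (C ρ).val (matN ω hwg y) ((C ρ).size - 1) ≤ (0 : ℝ)} =
      {y | (C ρ).Accepts (matN ω hwg y)}ᶜ := by
    ext y
    simp only [Set.mem_compl_iff]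
    constructor
    · intro h h'
      exact absurd h'.2 (not_lt.2 h)
    · intro h
      by_contra h'
      exact h ⟨hsz, not_le.1 h'⟩
  simp only at hd
  rw [hX', hY'] at hd
  -- conclusion: `ε / 2 * 2 ^ m ≤ size * 2 ^ (δ / 4 * n)`
  have hkey : ε / 2 * 2 ^ m ≤ (C ρ).size * (2 : ℝ) ^ (δ / 4 * n) := by
    rcases hd with hd | hd
    · have h1 : ε * 2 ^ m ≤ (C ρ).size * (2 : ℝ) ^ (δ / 4 * n) + 2 ^ m / (n : ℝ) ^ (a + 1) :=
        hXge.trans hd
      have h2 : (2 : ℝ) ^ m / (n : ℝ) ^ (a + 1) ≤ ε / 2 * 2 ^ m := by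
        rw [div_le_iff₀ (by positivity), pow_succ]
        have h3 : 1 ≤ ε * (n : ℝ) ^ a := by
          rwa [div_le_iff₀ (by positivity)] at hε
        have h4 : (2 : ℝ) ≤ n := by exact_mod_cast hn2
        have h5 : 1 ≤ ε / 2 * ((n : ℝ) ^ a * n) := by nlinarith
        nlinarith
      linarith
    · have h1 : ε * 2 ^ m ≤ (C ρ).size * (2 : ℝ) ^ (δ / 4 * n) := hYge.trans hd
      linarith
  have hS : ((C ρ).size : ℝ) ≤ S := by exact_mod_cast hsize
  -- comparison of the exponents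
  have hmn : (1 : ℝ) + (1 - δ) * n + δ / 4 * n ≤ m := by
    have h1 : (n : ℝ) ≤ m + w := by
      have : n ≤ m + w := by omega
      exact_mod_cast this
    have h2 : (w : ℝ) ≤ c * ((Nat.log 2 n + 1 : ℕ) : ℝ) := by exact_mod_cast hwc
    have h3 : (0 : ℝ) ≤ δ / 4 * n := by positivity
    linarith
  have h3 : (2 : ℝ) * 2 ^ ((1 - δ) * n) * (2 : ℝ) ^ (δ / 4 * n) ≤ 2 ^ m := by
    have h4 : (2 : ℝ) * 2 ^ ((1 - δ) * n) * (2 : ℝ) ^ (δ / 4 * n) =
        (2 : ℝ) ^ ((1 : ℝ) + (1 - δ) * n + δ / 4 * n) := by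
      rw [Real.rpow_add (by norm_num), Real.rpow_add (by norm_num), Real.rpow_one]
    rw [h4, ← Real.rpow_natCast]
    exact Real.rpow_le_rpow_of_exponent_le (by norm_num) hmn
  have hq : (0 : ℝ) < (2 : ℝ) ^ (δ / 4 * n) := by positivity
  have h5 : ε * (2 : ℝ) ^ ((1 - δ) * n) * (2 : ℝ) ^ (δ / 4 * n) ≤
      S * (2 : ℝ) ^ (δ / 4 * n) := by
    calc ε * (2 : ℝ) ^ ((1 - δ) * n) * (2 : ℝ) ^ (δ / 4 * n) =
          ε / 2 * (2 * 2 ^ ((1 - δ) * n) * (2 : ℝ) ^ (δ / 4 * n)) := by ring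
      _ ≤ ε / 2 * 2 ^ m := mul_le_mul_of_nonneg_left h3 (by positivity)
      _ ≤ (C ρ).size * (2 : ℝ) ^ (δ / 4 * n) := hkey
      _ ≤ S * (2 : ℝ) ^ (δ / 4 * n) := mul_le_mul_of_nonneg_right hS hq.le
  exact le_of_mul_le_mul_right h5 hq

end Pool.Agent.W970.Tri
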