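import Pool.Agent.W970.Tri.CircuitDefs
import Pool.Agent.H559R4.SatDefs

/-!
# Exhaustive search is a circuit of monotone real gates of fan-in two
-/

open Pool.Agent.H559R4

namespace Pool.Agent.W970.Tri

/-- a step of a chain: an input variable (or none) and a function of the last value and of the
input bit -/
abbrev Stp (ι : Type) := Option ι × (ℝ → ℝ → ℝ)

/-- the second argument of a step -/
noncomputable def Stp.arg {ι : Type} (x : ι → Bool) (s : ℝ) (t : Stp ι) : ℝ :=
  match t.1 with
  | some i => if x i = true then 1 else 0
  | none => s

/-- running a list of steps -/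
noncomputable def run {ι : Type} (x : ι → Bool) (L : List (Stp ι)) (s : ℝ) : ℝ :=
  L.foldl (fun s t => t.2 s (t.arg x s)) s

/-- the default step -/
def dflt (ι : Type) : Stp ι := (none, fun s _ => s)

/-- the circuit of a chain of steps -/
noncomputable def chain {ι : Type} (s0 : ℝ) (L : List (Stp ι)) : RealCircuit ι where
  size := L.length + 1
  fanin g := match g with
    | 0 => 0
    | _ + 1 => 2
  wire g := match g with
    | 0 => Fin.elim0
    | g + 1 => ![.inr ⟨g, Nat.lt_succ_self g⟩, match (L.getD g (dflt ι)).1 with
      | some i => .inl i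
      | none => .inr ⟨g, Nat.lt_succ_self g⟩]
  fn g := match g with
    | 0 => fun _ => s0
    | g + 1 => fun v => (L.getD g (dflt ι)).2 (v 0) (v 1)

theorem chain_val_zero {ι : Type} (s0 : ℝ) (L : List (Stp ι)) (x : ι → Bool) :
    (chain s0 L).val x 0 = s0 := by
  rw [RealCircuit.val]
  rfl

theorem chain_val_succ {ι : Type} (s0 : ℝ) (L : List (Stp ι)) (x : ι → Bool) (g : ℕ) :
    (chain s0 L).val x (g + 1) = (L.getD g (dflt ι)).2 ((chain s0 L).val x g)
      ((L.getD g (dflt ι)).arg x ((chain s0 L).val x g)) := by
  rw [RealCircuit.val]
  unfold Stp.arg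
  simp only [chain]
  cases h : (L.getD g (dflt ι)).1 with
  | none => simp
  | some i => simp

theorem chain_val {ι : Type} (s0 : ℝ) (L : List (Stp ι)) (x : ι → Bool) (g : ℕ)
    (hg : g ≤ L.length) : (chain s0 L).val x g = run x (L.take g) s0 := by
  induction g with
  | zero =>
    rw [chain_val_zero]
    simp [run]
  | succ g ih =>
    rw [chain_val_succ, ih (by omega)]
    have hg' : g < L.length := by omega
    rw [List.take_succ_eq_append_getElem hg']
    unfold run
    rw [List.foldl_append]
    simp [hg']

theorem chain_accepts {ι : Type} (s0 : ℝ) (L : List (Stp ι)) (x : ι → Bool) :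
    (chain s0 L).Accepts x ↔ 0 < run x L s0 := by
  unfold RealCircuit.Accepts
  have h1 : (chain s0 L).size = L.length + 1 := rfl
  rw [h1]
  simp only [Nat.add_sub_cancel]
  rw [chain_val s0 L x _ le_rfl, List.take_length]
  simp

theorem chain_mono {ι : Type} (s0 : ℝ) (L : List (Stp ι))
    (hL : ∀ t ∈ L, ∀ s s' b b' : ℝ, s ≤ s' → b ≤ b' → t.2 s b ≤ t.2 s' b') :
    (chain s0 L).IsMono 2 := by
  intro g hg
  have h1 : (chain s0 L).size = L.length + 1 := rfl
  rw [h1] at hg
  match g, hg with
  | 0, _ => exact ⟨by simp [chain], fun _ _ _ => le_rfl⟩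
  | g + 1, hg =>
    refine ⟨by simp [chain], ?_⟩
    intro v v' hv
    have hg' : g < L.length := by omega
    have hmem : L.getD g (dflt ι) ∈ L := by
      rw [List.getD_eq_getElem _ _ hg']
      exact List.getElem_mem hg'
    exact hL _ hmem _ _ _ _ (hv (0 : Fin 2)) (hv (1 : Fin 2))

/-- reading a literal -/
noncomputable def lit (s b : ℝ) : ℝ :=
  if 0 < s then 1 else if -2 < s then -1 else if -3 < s then (if 0 < b then -1 else -2) else -3

/-- end of a clause -/
noncomputable def endC (s : ℝ) : ℝ := if 0 < s then 1 else if -2 < s then -2 else -3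

/-- end of an assignment -/
noncomputable def endA (s : ℝ) : ℝ := if -3 < s then 1 else -2

theorem lit_mono {s s' b b' : ℝ} (hs : s ≤ s') (hb : b ≤ b') : lit s b ≤ lit s' b' := by
  unfold lit
  split_ifs <;> linarith

theorem endC_mono {s s' : ℝ} (hs : s ≤ s') : endC s ≤ endC s' := by
  unfold endC
  split_ifs <;> linarith

theorem endA_mono {s s' : ℝ} (hs : s ≤ s') : endA s ≤ endA s' := by
  unfold endA
  split_ifs <;> linarith

section
variable {n M : ℕ}

/-- the steps for one clause -/
noncomputable def clauseL (z : Fin n → Bool) (j : Fin M) (l : List (Fin n)) :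
    List (Stp (Fin M × Fin n × Bool)) :=
  l.map fun i => (some (j, i, z i), lit)

/-- the steps for one assignment -/
noncomputable def assignL (z : Fin n → Bool) (l : List (Fin M)) :
    List (Stp (Fin M × Fin n × Bool)) :=
  l.flatMap fun j => clauseL z j (List.finRange n) ++ [(none, fun s _ => endC s)]

/-- all the steps -/
noncomputable def allL (l : List (Fin n → Bool)) : List (Stp (Fin M × Fin n × Bool)) :=
  l.flatMap fun z => assignL z (List.finRange M) ++ [(none, fun s _ => endA s)]

theorem run_append {ι : Type} (x : ι → Bool) (L L' : List (Stp ι)) (s : ℝ) :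
    run x (L ++ L') s = run x L' (run x L s) := List.foldl_append

theorem run_cons {ι : Type} (x : ι → Bool) (t : Stp ι) (L : List (Stp ι)) (s : ℝ) :
    run x (t :: L) s = run x L (t.2 s (t.arg x s)) := rfl

theorem run_clause_one (F : Fin M × Fin n × Bool → Bool) (z : Fin n → Bool) (j : Fin M)
    (l : List (Fin n)) : run F (clauseL z j l) 1 = 1 := by
  induction l with
  | nil => rfl
  | cons i l ih =>
    have : clauseL z j (i :: l) = (some (j, i, z i), lit) :: clauseL z j l := rfl
    rw [this, run_cons]
    have h : ∀ b, lit 1 b = 1 := by intro b; simp [lit]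
    simp only [h, ih]

theorem run_clause_F (F : Fin M × Fin n × Bool → Bool) (z : Fin n → Bool) (j : Fin M)
    (l : List (Fin n)) : run F (clauseL z j l) (-3) = -3 := by
  induction l with
  | nil => rfl
  | cons i l ih =>
    have : clauseL z j (i :: l) = (some (j, i, z i), lit) :: clauseL z j l := rfl
    rw [this, run_cons]
    have h : ∀ b, lit (-3) b = -3 := by
      intro b
      unfold lit
      norm_num
    simp only [h, ih]

theorem run_clause_S (F : Fin M × Fin n × Bool → Bool) (z : Fin n → Bool) (j : Fin M)
    (l : List (Fin n)) : run F (clauseL z j l) (-1) = -1 := by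
  induction l with
  | nil => rfl
  | cons i l ih =>
    have : clauseL z j (i :: l) = (some (j, i, z i), lit) :: clauseL z j l := rfl
    rw [this, run_cons]
    have h : ∀ b, lit (-1) b = -1 := by
      intro b
      unfold lit
      norm_num
    simp only [h, ih]

theorem run_clause_U (F : Fin M × Fin n × Bool → Bool) (z : Fin n → Bool) (j : Fin M)
    (l : List (Fin n)) : run F (clauseL z j l) (-2) =
      if ∃ i ∈ l, F (j, i, z i) = true then -1 else -2 := by
  induction l with
  | nil => simp [clauseL, run]
  | cons i l ih =>
    have : clauseL z j (i :: l) = (some (j, i, z i), lit) :: clauseL z j l := rfl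
    rw [this, run_cons]
    have harg : Stp.arg F (-2) (some (j, i, z i), lit) = if F (j, i, z i) = true then 1 else 0 :=
      rfl
    simp only [harg]
    by_cases hF : F (j, i, z i) = true
    · rw [if_pos hF]
      have h : lit (-2) 1 = -1 := by unfold lit; norm_num
      rw [h, run_clause_S, if_pos ⟨i, by simp, hF⟩]
    · rw [if_neg hF]
      have h : lit (-2) 0 = -2 := by unfold lit; norm_num
      rw [h, ih]
      congr 1
      simp [hF]

theorem run_assign_one (F : Fin M × Fin n × Bool → Bool) (z : Fin n → Bool)
    (l : List (Fin M)) : run F (assignL z l) 1 = 1 := by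
  induction l with
  | nil => rfl
  | cons j l ih =>
    have : assignL z (j :: l) =
      (clauseL z j (List.finRange n) ++ [(none, fun s _ => endC s)]) ++ assignL z l := rfl
    rw [this, run_append, run_append, run_clause_one]
    have h : run F [(none, fun s _ => endC s)] 1 = 1 := by
      show endC 1 = 1
      simp [endC]
    rw [h, ih]

theorem run_assign_F (F : Fin M × Fin n × Bool → Bool) (z : Fin n → Bool)
    (l : List (Fin M)) : run F (assignL z l) (-3) = -3 := by
  induction l with
  | nil => rfl
  | cons j l ih =>
    have : assignL z (j :: l) =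
      (clauseL z j (List.finRange n) ++ [(none, fun s _ => endC s)]) ++ assignL z l := rfl
    rw [this, run_append, run_append, run_clause_F]
    have h : run F [(none, fun s _ => endC s)] (-3) = -3 := by
      show endC (-3) = -3
      unfold endC
      norm_num
    rw [h, ih]

theorem run_assign_U (F : Fin M × Fin n × Bool → Bool) (z : Fin n → Bool)
    (l : List (Fin M)) : run F (assignL z l) (-2) =
      if ∀ j ∈ l, ∃ i, F (j, i, z i) = true then -2 else -3 := by
  induction l with
  | nil => simp [assignL, run]
  | cons j l ih =>
    have : assignL z (j :: l) =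
      (clauseL z j (List.finRange n) ++ [(none, fun s _ => endC s)]) ++ assignL z l := rfl
    rw [this, run_append, run_append, run_clause_U]
    by_cases hF : ∃ i, F (j, i, z i) = true
    · have hF' : ∃ i ∈ List.finRange n, F (j, i, z i) = true := by
        obtain ⟨i, hi⟩ := hF
        exact ⟨i, List.mem_finRange i, hi⟩
      rw [if_pos hF']
      have h : run F [(none, fun s _ => endC s)] (-1) = -2 := by
        show endC (-1) = -2
        unfold endC
        norm_num
      rw [h, ih]
      congr 1
      simp only [List.mem_cons, forall_eq_or_imp, hF, true_and]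
    · have hF' : ¬ ∃ i ∈ List.finRange n, F (j, i, z i) = true := by
        rintro ⟨i, _, hi⟩
        exact hF ⟨i, hi⟩
      rw [if_neg hF']
      have h : run F [(none, fun s _ => endC s)] (-2) = -3 := by
        show endC (-2) = -3
        unfold endC
        norm_num
      rw [h, run_assign_F]
      rw [if_neg]
      intro hall
      exact hF (hall j (by simp))

theorem run_all_one (F : Fin M × Fin n × Bool → Bool)
    (l : List (Fin n → Bool)) : run F (allL l) 1 = 1 := by
  induction l with
  | nil => rfl
  | cons z l ih =>
    have : allL (M := M) (z :: l) =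
      (assignL z (List.finRange M) ++ [(none, fun s _ => endA s)]) ++ allL l := rfl
    rw [this, run_append, run_append, run_assign_one]
    have h : run F [(none, fun s _ => endA s)] 1 = 1 := by
      show endA 1 = 1
      unfold endA
      norm_num
    rw [h, ih]

theorem run_all (F : Fin M × Fin n × Bool → Bool)
    (l : List (Fin n → Bool)) : run F (allL l) (-2) =
      if ∃ z ∈ l, ∀ j, ∃ i, F (j, i, z i) = true then 1 else -2 := by
  induction l with
  | nil => simp [allL, run]
  | cons z l ih =>
    have : allL (M := M) (z :: l) =
      (assignL z (List.finRange M) ++ [(none, fun s _ => endA s)]) ++ allL l := rfl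
    rw [this, run_append, run_append, run_assign_U]
    by_cases hF : ∀ j, ∃ i, F (j, i, z i) = true
    · rw [if_pos fun j _ => hF j]
      have h : run F [(none, fun s _ => endA s)] (-2) = 1 := by
        show endA (-2) = 1
        unfold endA
        norm_num
      rw [h, run_all_one, if_pos ⟨z, by simp, hF⟩]
    · have hF' : ¬ ∀ j ∈ List.finRange M, ∃ i, F (j, i, z i) = true :=
        fun h => hF fun j => h j (List.mem_finRange j)
      rw [if_neg hF']
      have h : run F [(none, fun s _ => endA s)] (-3) = -2 := by
        show endA (-3) = -2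
        unfold endA
        norm_num
      rw [h, ih]
      congr 1
      simp only [List.mem_cons, exists_eq_or_imp, hF, false_or]

theorem length_allL (l : List (Fin n → Bool)) :
    (allL (M := M) l).length = l.length * (M * (n + 1) + 1) := by
  have h1 : ∀ (z : Fin n → Bool) (l : List (Fin M)), (assignL z l).length =
      l.length * (n + 1) := by
    intro z l
    induction l with
    | nil => simp [assignL]
    | cons j l ih =>
      have : assignL z (j :: l) =
        (clauseL z j (List.finRange n) ++ [(none, fun s _ => endC s)]) ++ assignL z l := rfl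
      rw [this, List.length_append, ih]
      simp [clauseL]
      ring
  induction l with
  | nil => simp [allL]
  | cons z l ih =>
    have : allL (M := M) (z :: l) =
      (assignL z (List.finRange M) ++ [(none, fun s _ => endA s)]) ++ allL l := rfl
    rw [this, List.length_append, ih, List.length_append, h1]
    simp
    ring

end

/-- **Exhaustive search.** -/
theorem sat_upper (n M : ℕ) : ∃ C : RealCircuit (Fin M × Fin n × Bool),
    C.size = 2 ^ n * (M * (n + 1) + 1) + 1 ∧ C.IsMono 2 ∧ ∀ F, C.Accepts F ↔ Sat F := by
  classical
  refine ⟨chain (-2) (allL (Finset.univ : Finset (Fin n → Bool)).toList), ?_, ?_, ?_⟩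
  · have h1 : ∀ L : List (Stp (Fin M × Fin n × Bool)), (chain (-2) L).size = L.length + 1 :=
      fun _ => rfl
    rw [h1, length_allL]
    simp
  · apply chain_mono
    intro t ht s s' b b' hs hb
    simp only [allL, assignL, clauseL, List.mem_flatMap, List.mem_append, List.mem_map,
      List.mem_singleton] at ht
    obtain ⟨z, _, ht⟩ := ht
    rcases ht with ⟨j, _, ht | ht⟩ | ht
    · obtain ⟨i, _, rfl⟩ := ht
      exact lit_mono hs hb
    · rw [ht]
      exact endC_mono hs
    · rw [ht]
      exact endA_mono hs
  · intro F
    rw [chain_accepts, run_all]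
    unfold Sat
    by_cases h : ∃ z ∈ (Finset.univ : Finset (Fin n → Bool)).toList,
        ∀ j, ∃ i, F (j, i, z i) = true
    · rw [if_pos h]
      obtain ⟨z, _, hz⟩ := h
      exact ⟨fun _ => ⟨z, hz⟩, fun _ => by norm_num⟩
    · rw [if_neg h]
      constructor
      · intro h'
        norm_num at h'
      · rintro ⟨z, hz⟩
        exact absurd ⟨z, by simp, hz⟩ h

end Pool.Agent.W970.Tri
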