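import Mathlib

/-!
# An asymptotic estimate
-/

open Filter

namespace Pool.Agent.W970.Tri

/-- linear functions of the logarithm are eventually below linear functions -/
theorem ev_log (α β : ℝ) {γ : ℝ} (hγ : 0 < γ) :
    ∀ᶠ n : ℕ in atTop, α * ((Nat.log 2 n + 1 : ℕ) : ℝ) + β ≤ γ * n := by
  have h1 : Tendsto (fun n : ℕ => Real.log n / n) atTop (nhds 0) := by
    have := (Real.isLittleO_log_id_atTop.tendsto_div_nhds_zero).comp
      (tendsto_natCast_atTop_atTop (R := ℝ))
    simpa [Function.comp_def] using this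
  have h2 : Tendsto (fun n : ℕ => (1 : ℝ) / n) atTop (nhds 0) :=
    tendsto_one_div_atTop_nhds_zero_nat
  have h3 : Tendsto (fun n : ℕ => (|α| / Real.log 2) * (Real.log n / n) + (|α| + β) * (1 / n))
      atTop (nhds 0) := by
    simpa using (h1.const_mul (|α| / Real.log 2)).add (h2.const_mul (|α| + β))
  have h4 := h3.eventually (gt_mem_nhds hγ)
  filter_upwards [h4, eventually_gt_atTop 0] with n hn hn0
  have hnpos : (0 : ℝ) < n := by exact_mod_cast hn0
  have hlog2 : (0 : ℝ) < Real.log 2 := Real.log_pos (by norm_num)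
  have h5 : (Nat.log 2 n : ℝ) ≤ Real.log n / Real.log 2 := by
    rw [le_div_iff₀ hlog2]
    have : ((2 : ℝ) ^ (Nat.log 2 n)) ≤ n := by exact_mod_cast Nat.pow_log_le_self 2 hn0.ne'
    have := Real.log_le_log (by positivity) this
    rwa [Real.log_pow] at this
  have h6 : α * ((Nat.log 2 n + 1 : ℕ) : ℝ) + β ≤
      |α| * (Real.log n / Real.log 2 + 1) + β := by
    have : α * ((Nat.log 2 n + 1 : ℕ) : ℝ) ≤ |α| * ((Nat.log 2 n + 1 : ℕ) : ℝ) :=
      mul_le_mul_of_nonneg_right (le_abs_self α) (by positivity)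
    have h7 : |α| * ((Nat.log 2 n + 1 : ℕ) : ℝ) ≤ |α| * (Real.log n / Real.log 2 + 1) := by
      apply mul_le_mul_of_nonneg_left _ (abs_nonneg α)
      push_cast
      linarith
    linarith
  refine h6.trans ?_
  have h8 : ((|α| / Real.log 2) * (Real.log n / n) + (|α| + β) * (1 / n)) * n =
      |α| * (Real.log n / Real.log 2 + 1) + β := by
    field_simp
    ring
  rw [← h8]
  exact mul_le_mul_of_nonneg_right hn.le hnpos.le

theorem lt_two_pow_log (n : ℕ) : n < 2 ^ (Nat.log 2 n + 1) := Nat.lt_pow_succ_log_self (by norm_num) n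

end Pool.Agent.W970.Tri
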