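import Pool.Agent.W970.Tri.Step

/-!
# The criterion for triangle dags
-/

open Finset

namespace Pool.Agent.W970.Tri

variable {X Y I : Type} (pos : I → X → Prop) (neg : I → Y → Prop)

/-- `lab 0, ..., lab (N-1)` are the nodes of a triangle dag of fan-in `d`: whenever a node separates
`(x, y)`, one of its at most `d` children does, and each child is an earlier node or a leaf. -/
def IsDag (d N : ℕ) (lab : ℕ → Lab X Y) : Prop :=
  ∀ g < N, ∃ (k : ℕ) (q : Fin k → Lab X Y), k ≤ d ∧
    (∀ h, (∃ g' < g, q h = lab g') ∨ IsLeaf pos neg (q h)) ∧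
    ∀ x y, (lab g).b y < (lab g).a x → ∃ h, (q h).b y < (q h).a x

variable {pos neg}

theorem IsDag.app [Fintype X] [Fintype Y] [Fintype I] {s r A B d N : ℕ} (hs : 1 ≤ s)
    {lab : ℕ → Lab X Y} (hdag : IsDag pos neg d N lab)
    (hA : ∀ T : Finset I, T.card = r + 1 → Set.ncard {x | ∀ i ∈ T, pos i x} ≤ A)
    (hB : ∀ T : Finset I, T.card = s + 1 → Set.ncard {y | ∀ i ∈ T, neg i y} ≤ B) :
    ∃ (E : Set X) (F : Set Y) (C : ℕ → ℝ → Set (Finset I)),
      Set.ncard E ≤ N * ((d * s) ^ (r + 1) * A) ∧ Set.ncard F ≤ N * (r ^ (s + 1) * B) ∧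
      ∀ g < N, App pos neg s E F (lab g) (C g) := by
  classical
  induction N with
  | zero => exact ⟨∅, ∅, fun _ _ => ∅, by simp, by simp, by simp⟩
  | succ N ih =>
    obtain ⟨E, F, C, hE, hF, hC⟩ := ih fun g hg => hdag g (by omega)
    obtain ⟨k, q, hk, hq, hp⟩ := hdag N (by omega)
    have : ∀ h, ∃ C', App pos neg s E F (q h) C' := by
      intro h
      rcases hq h with ⟨g', hg', hh⟩ | hl
      · rw [hh]
        exact ⟨_, hC g' hg'⟩
      · obtain ⟨C', hC'⟩ := App.leaf hs hl
        exact ⟨C', hC'.weaken (Set.empty_subset _) (Set.empty_subset _)⟩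
    choose Cq hCq using this
    obtain ⟨E', F', D, hE', hF', hD⟩ := App.step hk (lab N) q Cq hCq hp hA hB
    refine ⟨E ∪ E', F ∪ F', fun g => if g = N then D else C g, ?_, ?_, ?_⟩
    · calc _ ≤ E.ncard + E'.ncard := Set.ncard_union_le _ _
        _ ≤ N * ((d * s) ^ (r + 1) * A) + (d * s) ^ (r + 1) * A := Nat.add_le_add hE hE'
        _ = (N + 1) * ((d * s) ^ (r + 1) * A) := by ring
    · calc _ ≤ F.ncard + F'.ncard := Set.ncard_union_le _ _
        _ ≤ N * (r ^ (s + 1) * B) + r ^ (s + 1) * B := Nat.add_le_add hF hF'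
        _ = (N + 1) * (r ^ (s + 1) * B) := by ring
    · intro g hg
      rcases Nat.lt_succ_iff_lt_or_eq.1 hg with h | h
      · have h0 : (if g = N then D else C g) = C g := if_neg h.ne
        simp only [h0]
        exact (hC g h).weaken Set.subset_union_left Set.subset_union_left
      · subst h
        simp only [if_true]
        exact hD

/-- **The criterion.** A node of a triangle dag with `N` nodes cannot separate many positive tests
from many negative tests by a threshold. -/
theorem IsDag.bound [Fintype X] [Fintype Y] [Fintype I] {s r A B d N P : ℕ} (hs : 1 ≤ s)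
    {lab : ℕ → Lab X Y} (hdag : IsDag pos neg d N lab)
    (hA : ∀ T : Finset I, T.card = r + 1 → Set.ncard {x | ∀ i ∈ T, pos i x} ≤ A)
    (hB : ∀ T : Finset I, T.card = s + 1 → Set.ncard {y | ∀ i ∈ T, neg i y} ≤ B)
    (hP : ∀ i, Set.ncard {x | pos i x} ≤ P) {g : ℕ} (hg : g < N) (θ : ℝ) :
    Set.ncard {x | θ < (lab g).a x} ≤ N * ((d * s) ^ (r + 1) * A) + s * P ∨
      Set.ncard {y | (lab g).b y ≤ θ} ≤ N * (r ^ (s + 1) * B) := by
  classical
  obtain ⟨E, F, C, hE, hF, hC⟩ := hdag.app hs hA hB
  have h := hC g hg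
  by_cases hy : {y | (lab g).b y ≤ θ} ⊆ F
  · right
    exact (Set.ncard_le_ncard hy (Set.toFinite _)).trans hF
  · left
    rw [Set.not_subset] at hy
    obtain ⟨y, hy, hyF⟩ := hy
    obtain ⟨c, hc, _⟩ := h.cpl y hyF θ hy
    have hcs := h.size _ _ hc
    have hsub : {x | θ < (lab g).a x} ⊆ E ∪ ⋃ i ∈ c, {x | pos i x} := by
      intro x hx
      by_cases hxE : x ∈ E
      · exact Or.inl hxE
      · right
        obtain ⟨i, hi, hix⟩ := h.snd x hxE θ hx c hc
        simp only [Set.mem_iUnion]
        exact ⟨i, hi, hix⟩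
    calc _ ≤ Set.ncard (E ∪ ⋃ i ∈ c, {x | pos i x}) :=
          Set.ncard_le_ncard hsub (Set.toFinite _)
      _ ≤ E.ncard + Set.ncard (⋃ i ∈ c, {x | pos i x}) := Set.ncard_union_le _ _
      _ ≤ N * ((d * s) ^ (r + 1) * A) + s * P := by
        apply Nat.add_le_add hE
        have : ∀ c : Finset I, Set.ncard (⋃ i ∈ c, {x | pos i x}) ≤ c.card * P := by
          intro c
          induction c using Finset.induction_on with
          | empty => simp
          | insert i c hic ih =>
            rw [Finset.set_biUnion_insert, Finset.card_insert_of_notMem hic]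
            refine (Set.ncard_union_le _ _).trans ?_
            calc _ ≤ P + c.card * P := Nat.add_le_add (hP i) ih
              _ = (c.card + 1) * P := by ring
        exact (this c).trans (Nat.mul_le_mul_right _ hcs)

end Pool.Agent.W970.Tri
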