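import Pool.Agent.W970.Tri.Family2
import Pool.Agent.W970.Tri.Dag
import Pool.Agent.W970.Tri.Asym

/-!
# The lower bound for triangle dags over the random family
-/

open Finset Filter

namespace Pool.Agent.W970.Tri

theorem rpow_two_natCast (x : ℝ) (k : ℕ) (h : (k : ℝ) ≤ x) : (2 : ℝ) ^ k ≤ (2 : ℝ) ^ x := by
  rw [← Real.rpow_natCast]
  exact Real.rpow_le_rpow_of_exponent_le (by norm_num) h

/-- choice of `k` -/
theorem exists_k {δ : ℝ} (hδ : 0 < δ) : ∃ k : ℕ, (1 : ℝ) + (1 / 2) ^ k ≤ (2 : ℝ) ^ (δ / 8) := by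
  have h1 : (1 : ℝ) < (2 : ℝ) ^ (δ / 8) := Real.one_lt_rpow (by norm_num) (by positivity)
  obtain ⟨k, hk⟩ := exists_pow_lt_of_lt_one (sub_pos.2 h1) (show (1 / 2 : ℝ) < 1 by norm_num)
  exact ⟨k, by linarith⟩

/-- size of the balls -/
theorem ball_param {δ : ℝ} (hδ : 0 < δ) {k R w g n : ℕ}
    (hk : (1 : ℝ) + (1 / 2) ^ k ≤ (2 : ℝ) ^ (δ / 8)) (hR : 0 < R)
    (hkR : (k : ℝ) / R ≤ δ / 8) (hn : w * g ≤ n) (x : Pt w g) :
    Set.ncard {y | ¬ (w * g / R) < hammingDist x y} ≤ ⌊(2 : ℝ) ^ (δ / 4 * n)⌋₊ := by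
  apply Nat.le_floor
  have h := ball_le (z := (1 / 2) ^ k) (by positivity) (pow_le_one₀ (by norm_num) (by norm_num))
    (w * g / R) x
  have hset : {y | ¬ (w * g / R) < hammingDist x y} = {y | hammingDist x y ≤ w * g / R} := by
    ext y; simp
  rw [hset]
  simp only [Fintype.card_prod, Fintype.card_fin] at h
  have h1 : ((1 : ℝ) + (1 / 2) ^ k) ^ (w * g) ≤ (2 : ℝ) ^ (δ / 8 * n) := by
    calc ((1 : ℝ) + (1 / 2) ^ k) ^ (w * g) ≤ ((2 : ℝ) ^ (δ / 8)) ^ (w * g) :=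
          pow_le_pow_left₀ (by positivity) hk _
      _ = (2 : ℝ) ^ (δ / 8 * (w * g : ℕ)) := by
          rw [Real.rpow_mul (by norm_num), Real.rpow_natCast]
      _ ≤ (2 : ℝ) ^ (δ / 8 * n) := by
          apply Real.rpow_le_rpow_of_exponent_le (by norm_num)
          apply mul_le_mul_of_nonneg_left _ (by positivity)
          exact_mod_cast hn
  have h2 : (((1 : ℝ) / 2) ^ k) ^ (w * g / R) * (2 : ℝ) ^ (k * (w * g / R)) = 1 := by
    rw [← pow_mul, ← mul_pow]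
    norm_num
  have h3 : (2 : ℝ) ^ (k * (w * g / R)) ≤ (2 : ℝ) ^ (δ / 8 * n) := by
    apply rpow_two_natCast
    have hRpos : (0 : ℝ) < R := by exact_mod_cast hR
    have h4 : ((w * g / R : ℕ) : ℝ) ≤ n / R := by
      refine (Nat.cast_div_le).trans ?_
      apply div_le_div_of_nonneg_right _ hRpos.le
      exact_mod_cast hn
    push_cast
    calc (k : ℝ) * ((w * g / R : ℕ) : ℝ) ≤ k * (n / R) :=
          mul_le_mul_of_nonneg_left h4 (by positivity)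
      _ = (k / R) * n := by ring
      _ ≤ δ / 8 * n := mul_le_mul_of_nonneg_right hkR (by positivity)
  calc (Set.ncard {y | hammingDist x y ≤ w * g / R} : ℝ)
      = Set.ncard {y | hammingDist x y ≤ w * g / R} * ((((1 : ℝ) / 2) ^ k) ^ (w * g / R)) *
        (2 : ℝ) ^ (k * (w * g / R)) := by rw [mul_assoc, h2, mul_one]
    _ ≤ (2 : ℝ) ^ (δ / 8 * n) * (2 : ℝ) ^ (δ / 8 * n) :=
        mul_le_mul (h.trans h1) h3 (by positivity) (by positivity)
    _ = (2 : ℝ) ^ (δ / 4 * n) := by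
        rw [← Real.rpow_add (by norm_num)]
        congr 1
        ring

/-- the covering condition -/
theorem cover_param {m b : ℕ} :
    (2 : ℝ) ^ (2 * m) * (1 - (1 / 2) ^ (2 * b + 2)) ^ (2 ^ (2 * b + 3) * (m + 1)) < 1 / 4 := by
  have h1 : (1 - (1 / 2 : ℝ) ^ (2 * b + 2)) ≤ Real.exp (-(1 / 2) ^ (2 * b + 2)) := by
    have := Real.add_one_le_exp (-(1 / 2 : ℝ) ^ (2 * b + 2))
    linarith
  have h0 : 0 ≤ (1 - (1 / 2 : ℝ) ^ (2 * b + 2)) := by
    have : (1 / 2 : ℝ) ^ (2 * b + 2) ≤ 1 := pow_le_one₀ (by norm_num) (by norm_num)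
    linarith
  have h2 : (1 - (1 / 2 : ℝ) ^ (2 * b + 2)) ^ (2 ^ (2 * b + 3) * (m + 1)) ≤
      (Real.exp (-2)) ^ (m + 1) := by
    calc _ ≤ (Real.exp (-(1 / 2) ^ (2 * b + 2))) ^ (2 ^ (2 * b + 3) * (m + 1)) :=
          pow_le_pow_left₀ h0 h1 _
      _ = (Real.exp (-2)) ^ (m + 1) := by
        rw [pow_mul]
        congr 1
        rw [← Real.exp_nat_mul]
        congr 1
        push_cast
        have : (2 : ℝ) ^ (2 * b + 3) * (1 / 2) ^ (2 * b + 2) = 2 := by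
          rw [show 2 * b + 3 = (2 * b + 2) + 1 by ring, pow_succ, mul_right_comm, ← mul_pow]
          norm_num
        linarith
  have h3 : Real.exp (-2) < 1 / 4 := by
    have : (2 : ℝ) < Real.exp 1 := by
      have := Real.exp_one_gt_d9
      linarith
    rw [Real.exp_neg, inv_eq_one_div]
    apply one_div_lt_one_div_of_lt (by norm_num)
    have h4 : Real.exp 2 = Real.exp 1 * Real.exp 1 := by
      rw [← Real.exp_add]; norm_num
    rw [h4]
    nlinarith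
  calc _ ≤ (2 : ℝ) ^ (2 * m) * (Real.exp (-2)) ^ (m + 1) :=
        mul_le_mul_of_nonneg_left h2 (by positivity)
    _ ≤ (2 : ℝ) ^ (2 * m) * ((1 / 4) ^ m * Real.exp (-2)) := by
        apply mul_le_mul_of_nonneg_left _ (by positivity)
        rw [pow_succ]
        exact mul_le_mul_of_nonneg_right (pow_le_pow_left₀ (Real.exp_pos _).le h3.le _)
          (Real.exp_pos _).le
    _ = Real.exp (-2) := by
        rw [pow_mul, ← mul_assoc, ← mul_pow]
        norm_num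
    _ < 1 / 4 := h3

/-- the intersection condition -/
theorem inter_param {m b w g R : ℕ} (hg : 0 < g) (hR : 0 < R) (hw : w = R * (4 * b + 4))
    (hm : m = w * g) (hb : 0 < b) (hmb : 16 * (m + 1) ≤ 2 ^ b) :
    ((2 ^ (2 * b + 3) * (m + 1) : ℕ) : ℝ) ^ ((4 * m + 2) / b + 1) * 2 ^ (w * g * (3 + 1)) *
        (((3 + 1 : ℕ) : ℝ) ^ 2 * Real.exp (-((w * g / R : ℕ) : ℝ) / g) +
          (((2 ^ (w - b) : ℕ) : ℝ) * (1 / 2) ^ w) ^ (3 + 1)) ^ ((4 * m + 2) / b + 1) < 1 / 4 := by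
  have hgpos : (0 : ℝ) < g := by exact_mod_cast hg
  have hbw : b ≤ w := by
    rw [hw]
    calc b ≤ 1 * (4 * b + 4) := by omega
      _ ≤ R * (4 * b + 4) := Nat.mul_le_mul_right _ hR
  have e1 : w * g / R = (4 * b + 4) * g := by
    rw [hw, mul_assoc, Nat.mul_div_cancel_left _ hR]
  have e2 : -((w * g / R : ℕ) : ℝ) / g = -((4 * b + 4 : ℕ) : ℝ) := by
    rw [e1]
    push_cast
    field_simp
  have e3 : Real.exp (-((4 * b + 4 : ℕ) : ℝ)) ≤ (1 / 2) ^ (4 * b + 4) := by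
    have : Real.exp (-((4 * b + 4 : ℕ) : ℝ)) = (Real.exp (-1)) ^ (4 * b + 4) := by
      rw [← Real.exp_nat_mul]
      congr 1
      ring
    rw [this]
    apply pow_le_pow_left₀ (Real.exp_pos _).le
    rw [Real.exp_neg, inv_eq_one_div]
    apply one_div_le_one_div_of_le (by norm_num)
    have := Real.exp_one_gt_d9
    linarith
  have e4 : ((2 ^ (w - b) : ℕ) : ℝ) * (1 / 2) ^ w = (1 / 2) ^ b := by
    push_cast
    have h4 : w = (w - b) + b := by omega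
    nth_rewrite 2 [h4]
    rw [pow_add, ← mul_assoc, ← mul_pow]
    norm_num
  rw [e2, e4]
  have e5 : (((3 + 1 : ℕ) : ℝ) ^ 2 * Real.exp (-((4 * b + 4 : ℕ) : ℝ)) +
      ((1 / 2 : ℝ) ^ b) ^ (3 + 1)) ≤ 2 * (1 / 2) ^ (4 * b) := by
    have h1 : ((1 / 2 : ℝ) ^ b) ^ (3 + 1) = (1 / 2) ^ (4 * b) := by
      rw [← pow_mul]; congr 1; ring
    have h2 : ((3 + 1 : ℕ) : ℝ) ^ 2 * Real.exp (-((4 * b + 4 : ℕ) : ℝ)) ≤ (1 / 2) ^ (4 * b) := by
      calc _ ≤ ((3 + 1 : ℕ) : ℝ) ^ 2 * (1 / 2) ^ (4 * b + 4) :=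
            mul_le_mul_of_nonneg_left e3 (by positivity)
        _ = (1 / 2) ^ (4 * b) := by
            rw [pow_add]
            norm_num
            ring
    linarith
  have e6 : ((2 ^ (2 * b + 3) * (m + 1) : ℕ) : ℝ) * (2 * (1 / 2) ^ (4 * b)) ≤ (1 / 2) ^ b := by
    have h1 : (16 : ℝ) * (m + 1) ≤ 2 ^ b := by exact_mod_cast hmb
    push_cast
    have h2 : (2 : ℝ) ^ (2 * b + 3) * (m + 1) * (2 * (1 / 2) ^ (4 * b)) =
        (16 * (m + 1)) * (1 / 2) ^ (2 * b) * ((2 ^ (2 * b)) * (1 / 2) ^ (2 * b)) := by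
      rw [show 4 * b = 2 * b + 2 * b by ring, pow_add, pow_add]
      ring
    rw [h2]
    have h3 : (2 : ℝ) ^ (2 * b) * (1 / 2) ^ (2 * b) = 1 := by
      rw [← mul_pow]; norm_num
    rw [h3, mul_one]
    calc (16 * ((m : ℝ) + 1)) * (1 / 2) ^ (2 * b) ≤ 2 ^ b * (1 / 2) ^ (2 * b) :=
          mul_le_mul_of_nonneg_right h1 (by positivity)
      _ = (1 / 2) ^ b := by
        rw [show 2 * b = b + b by ring, pow_add, ← mul_assoc, ← mul_pow]
        norm_num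
  set r1 := (4 * m + 2) / b + 1 with hr1
  have hr : 4 * m + 2 < b * r1 := by
    rw [hr1]
    exact Nat.lt_mul_div_succ _ hb
  calc _ ≤ ((2 ^ (2 * b + 3) * (m + 1) : ℕ) : ℝ) ^ r1 * 2 ^ (w * g * (3 + 1)) *
        (2 * (1 / 2) ^ (4 * b)) ^ r1 := by
        apply mul_le_mul_of_nonneg_left _ (by positivity)
        exact pow_le_pow_left₀ (by positivity) e5 _
    _ = (((2 ^ (2 * b + 3) * (m + 1) : ℕ) : ℝ) * (2 * (1 / 2) ^ (4 * b))) ^ r1 *
        2 ^ (4 * m) := by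
        rw [mul_pow _ (2 * (1 / 2 : ℝ) ^ (4 * b)) r1, hm]
        ring
    _ ≤ ((1 / 2 : ℝ) ^ b) ^ r1 * 2 ^ (4 * m) := by
        apply mul_le_mul_of_nonneg_right _ (by positivity)
        exact pow_le_pow_left₀ (by positivity) e6 _
    _ = (1 / 2 : ℝ) ^ (b * r1) * 2 ^ (4 * m) := by rw [← pow_mul]
    _ ≤ (1 / 2 : ℝ) ^ (4 * m + 3) * 2 ^ (4 * m) := by
        apply mul_le_mul_of_nonneg_right _ (by positivity)
        exact pow_le_pow_of_le_one (by norm_num) (by norm_num) hr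
    _ = 1 / 8 := by
        rw [pow_add, mul_right_comm, ← mul_pow]
        norm_num
    _ < 1 / 4 := by norm_num

end Pool.Agent.W970.Tri
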