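import Pool.Agent.W970.Tri.Pr

/-!
# Random families of sets of points with small intersections
-/

open Finset

namespace Pool.Agent.W970.Tri

/-- the points -/
abbrev Pt (w g : ℕ) := Fin w × Fin g → Bool

/-- positions (one in each of the `w` blocks) and `K` strings of length `w` -/
abbrev Om (w g K : ℕ) := (Fin w → Fin g) × (Fin K → (Fin w → Bool))

/-- one of the strings of `o` is the restriction of `x` to the positions of `o` -/
def Hit {w g K : ℕ} (o : Om w g K) (x : Pt w g) : Prop := ∃ l, ∀ j, x (j, o.1 j) = o.2 l j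

variable {w g K : ℕ}

theorem pr_bool_singleton (c : Bool) : pr {b : Bool | b = c} = 1 / 2 := by
  unfold pr
  simp

theorem pr_string (s : Fin w → Bool) : pr {σ : Fin w → Bool | σ = s} = (1 / 2) ^ w := by
  unfold pr
  simp

/-- a random set is small -/
theorem pr_hit_le (o : Om w g K) : pr {x : Pt w g | Hit o x} ≤ K * (1 / 2) ^ w := by
  have h : ∀ l : Fin K, pr {x : Pt w g | ∀ j, x (j, o.1 j) = o.2 l j} ≤ (1 / 2) ^ w := by
    intro l
    have : {x : Pt w g | ∀ j, x (j, o.1 j) = o.2 l j} ⊆
        {x : Pt w g | ∀ p, x p ∈ (if p.2 = o.1 p.1 then {b : Bool | b = o.2 l p.1}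
          else Set.univ)} := by
      intro x hx p
      split_ifs with hp
      · have := hx p.1
        rw [← hp] at this
        exact this
      · trivial
    refine (pr_mono this).trans ?_
    rw [pr_pi]
    have h2 : ∀ p : Fin w × Fin g, pr (if p.2 = o.1 p.1 then {b : Bool | b = o.2 l p.1}
          else Set.univ) = if p.2 = o.1 p.1 then (1 / 2 : ℝ) else 1 := by
      intro p
      split_ifs
      · exact pr_bool_singleton _
      · exact pr_univ
    rw [Finset.prod_congr rfl fun p _ => h2 p]
    rw [Fintype.prod_prod_type]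
    simp
  have h3 := pr_exists_le' (Ω := Pt w g) (Finset.univ : Finset (Fin K))
    (fun l x => ∀ j, x (j, o.1 j) = o.2 l j) (q := (1 / 2) ^ w) (fun l _ => h l)
  simpa [Hit] using h3

/-- strings avoiding a given string -/
theorem pr_avoid (z : Fin w → Bool) :
    pr {σ : Fin K → (Fin w → Bool) | ∀ l, σ l ≠ z} = (1 - (1 / 2) ^ w) ^ K := by
  have := pr_pi (Ω := Fin w → Bool) (ι := Fin K) (fun _ => {s | s = z}ᶜ)
  simp only [pr_compl, pr_string] at this
  simpa using this

theorem exp_neg_le {v : ℝ} (h0 : 0 ≤ v) (h1 : v ≤ 1) : Real.exp (-v) ≤ 1 - v / 2 := by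
  have h := Real.add_one_le_exp v
  have hpos : 0 < Real.exp v := Real.exp_pos v
  rw [Real.exp_neg, inv_le_comm₀ hpos (by linarith)]
  refine le_trans ?_ h
  rw [inv_le_iff_one_le_mul₀ (by linarith)]
  nlinarith

/-- a random set contains a given point with a good probability -/
theorem le_pr_hit [NeZero g] {b : ℕ} (hb : b ≤ w) (hK : K = 2 ^ (w - b)) (x : Pt w g) :
    pr {o : Om w g K | ¬ Hit o x} ≤ 1 - (1 / 2) ^ (b + 1) := by
  have hE := pr_fiber_le (Ω := Fin w → Fin g) (Ω' := Fin K → (Fin w → Bool))
    {o : Om w g K | ¬ Hit o x} ∅ (q := 1 - (1 / 2) ^ (b + 1)) ?_ ?_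
  · have h0 : pr (∅ : Set (Fin w → Fin g)) = 0 := by simp [pr]
    linarith
  · have : ((1 : ℝ) / 2) ^ (b + 1) ≤ 1 := pow_le_one₀ (by norm_num) (by norm_num)
    linarith
  · intro e _
    have h1 : {σ : Fin K → (Fin w → Bool) | (e, σ) ∈ {o : Om w g K | ¬ Hit o x}} ⊆
        {σ | ∀ l, σ l ≠ fun j => x (j, e j)} := by
      intro σ hσ l hl
      exact hσ ⟨l, fun j => (congrFun hl j).symm⟩
    refine (pr_mono h1).trans ?_
    rw [pr_avoid]
    have h2 : (1 - (1 / 2 : ℝ) ^ w) ≤ Real.exp (-(1 / 2) ^ w) := by
      have := Real.add_one_le_exp (-(1 / 2 : ℝ) ^ w)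
      linarith
    have h3 : (0 : ℝ) ≤ 1 - (1 / 2 : ℝ) ^ w := by
      have : ((1 : ℝ) / 2) ^ w ≤ 1 := pow_le_one₀ (by norm_num) (by norm_num)
      linarith
    calc (1 - (1 / 2 : ℝ) ^ w) ^ K ≤ Real.exp (-(1 / 2) ^ w) ^ K := pow_le_pow_left₀ h3 h2 K
      _ = Real.exp (-(1 / 2) ^ b) := by
        rw [← Real.exp_nat_mul]
        congr 1
        rw [hK]
        push_cast
        have : (2 : ℝ) ^ (w - b) * (1 / 2) ^ w = (1 / 2) ^ b := by
          have h4 : w = (w - b) + b := by omega
          nth_rewrite 2 [h4]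
          rw [pow_add, ← mul_assoc, ← mul_pow]
          norm_num
        linarith
      _ ≤ 1 - (1 / 2) ^ b / 2 := exp_neg_le (by positivity)
          (pow_le_one₀ (by norm_num) (by norm_num))
      _ = 1 - (1 / 2) ^ (b + 1) := by ring

/-- random positions seldom identify far points -/
theorem pr_proj_le [NeZero g] (x y : Pt w g) :
    pr {e : Fin w → Fin g | ∀ j, x (j, e j) = y (j, e j)} ≤
      Real.exp (-(hammingDist x y : ℝ) / g) := by
  classical
  have hg : (0 : ℝ) < g := by exact_mod_cast Nat.pos_of_ne_zero (NeZero.ne g)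
  have h1 := pr_pi (Ω := Fin g) (ι := Fin w) (fun j => {v | x (j, v) = y (j, v)})
  have h2 : {e : Fin w → Fin g | ∀ j, x (j, e j) = y (j, e j)} =
      {ω : Fin w → Fin g | ∀ i, ω i ∈ {v | x (i, v) = y (i, v)}} := rfl
  rw [h2, h1]
  have h3 : ∀ j : Fin w, pr {v : Fin g | x (j, v) = y (j, v)} ≤
      Real.exp (-(((Finset.univ.filter fun v : Fin g => x (j, v) ≠ y (j, v)).card : ℝ) / g)) := by
    intro j
    have h4 : {v : Fin g | x (j, v) = y (j, v)} =
        ((Finset.univ.filter fun v : Fin g => x (j, v) ≠ y (j, v) : Finset (Fin g)) :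
          Set (Fin g))ᶜ := by
      ext v; simp
    rw [h4, pr_compl]
    have h5 : pr ((Finset.univ.filter fun v : Fin g => x (j, v) ≠ y (j, v) : Finset (Fin g)) :
          Set (Fin g)) = ((Finset.univ.filter fun v : Fin g =>
            x (j, v) ≠ y (j, v)).card : ℝ) / g := by
      unfold pr
      rw [Set.ncard_coe_finset, Fintype.card_fin]
    rw [h5]
    have := Real.add_one_le_exp (-(((Finset.univ.filter fun v : Fin g =>
      x (j, v) ≠ y (j, v)).card : ℝ) / g))
    linarith
  refine (Finset.prod_le_prod (fun j _ => pr_nonneg _) fun j _ => h3 j).trans ?_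
  rw [← Real.exp_sum]
  apply Real.exp_le_exp.2
  rw [Finset.sum_neg_distrib, ← Finset.sum_div, neg_div]
  have h6 : (hammingDist x y : ℝ) =
      ∑ j : Fin w, ((Finset.univ.filter fun v : Fin g => x (j, v) ≠ y (j, v)).card : ℝ) := by
    unfold hammingDist
    rw [Finset.card_filter, Fintype.sum_prod_type]
    push_cast
    apply Finset.sum_congr rfl
    intro j _
    rw [Finset.card_filter]
    push_cast
    rfl
  rw [h6]

/-- few random strings seldom hit many given strings -/
theorem pr_strings_le {t : ℕ} (z : Fin t → (Fin w → Bool)) (hz : Function.Injective z) :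
    pr {σ : Fin K → (Fin w → Bool) | ∀ j, ∃ l, z j = σ l} ≤ (K * (1 / 2) ^ w) ^ t := by
  classical
  have h1 : {σ : Fin K → (Fin w → Bool) | ∀ j, ∃ l, z j = σ l} ⊆
      {σ | ∃ f ∈ (Finset.univ : Finset (Fin t → Fin K)), ∀ j, z j = σ (f j)} := by
    intro σ hσ
    choose f hf using hσ
    exact ⟨f, Finset.mem_univ _, hf⟩
  refine (pr_mono h1).trans ?_
  have h2 := pr_exists_le' (Ω := Fin K → (Fin w → Bool))
    (Finset.univ : Finset (Fin t → Fin K)) (fun f σ => ∀ j, z j = σ (f j))
    (q := ((1 / 2) ^ w) ^ t) ?_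
  · refine h2.trans ?_
    rw [mul_pow]
    simp
  · intro f _
    by_cases hf : Function.Injective f
    · -- restrict the values at the positions of `f`
      have h3 : {σ : Fin K → (Fin w → Bool) | ∀ j, z j = σ (f j)} ⊆
          {σ | ∀ l, σ l ∈ (if h : ∃ j, f j = l then {s | s = z h.choose} else Set.univ)} := by
        intro σ hσ l
        split_ifs with h
        · have := hσ h.choose
          rw [h.choose_spec] at this
          exact this.symm
        · trivial
      refine (pr_mono h3).trans ?_
      rw [pr_pi]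
      have h4 : ∀ l : Fin K, pr (if h : ∃ j, f j = l then {s : Fin w → Bool | s = z h.choose}
          else Set.univ) = if l ∈ Finset.univ.image f then ((1 : ℝ) / 2) ^ w else 1 := by
        intro l
        by_cases h : ∃ j, f j = l
        · rw [dif_pos h, if_pos (by simpa using h), pr_string]
        · rw [dif_neg h, if_neg (by simpa using h), pr_univ]
      rw [Finset.prod_congr rfl fun l _ => h4 l, Finset.prod_ite]
      simp [Finset.card_image_of_injective _ hf]
    · have h3 : {σ : Fin K → (Fin w → Bool) | ∀ j, z j = σ (f j)} = ∅ := by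
        refine Set.eq_empty_of_forall_notMem ?_
        intro σ hσ
        apply hf
        intro j j' hjj
        apply hz
        rw [hσ j, hσ j', hjj]
      rw [h3]
      have : pr (∅ : Set (Fin K → (Fin w → Bool))) = 0 := by simp [pr]
      rw [this]
      positivity

/-- a random set seldom contains `t` given points which are far from each other -/
theorem pr_far_le [NeZero g] [NeZero K] {t ρ : ℕ} (x : Fin t → Pt w g)
    (hx : ∀ j j', j ≠ j' → ρ < hammingDist (x j) (x j')) :
    pr {o : Om w g K | ∀ j, Hit o (x j)} ≤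
      t ^ 2 * Real.exp (-(ρ : ℝ) / g) + (K * (1 / 2) ^ w) ^ t := by
  classical
  have hg : (0 : ℝ) < g := by exact_mod_cast Nat.pos_of_ne_zero (NeZero.ne g)
  have h := pr_fiber_le (Ω := Fin w → Fin g) (Ω' := Fin K → (Fin w → Bool))
    {o : Om w g K | ∀ j, Hit o (x j)}
    {e | ∃ p ∈ (Finset.univ : Finset (Fin t × Fin t)).filter (fun p => p.1 ≠ p.2),
      ∀ j, x p.1 (j, e j) = x p.2 (j, e j)} (q := (K * (1 / 2) ^ w) ^ t) (by positivity) ?_
  · refine h.trans ?_
    apply add_le_add _ le_rfl
    refine (pr_exists_le' _ _ (q := Real.exp (-(ρ : ℝ) / g)) ?_).trans ?_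
    · intro p hp
      refine (pr_proj_le (x p.1) (x p.2)).trans ?_
      apply Real.exp_le_exp.2
      apply div_le_div_of_nonneg_right _ hg.le
      have := hx p.1 p.2 (Finset.mem_filter.1 hp).2
      have : (ρ : ℝ) ≤ hammingDist (x p.1) (x p.2) := by exact_mod_cast this.le
      linarith
    · apply mul_le_mul_of_nonneg_right _ (Real.exp_pos _).le
      have : ((Finset.univ : Finset (Fin t × Fin t)).filter (fun p => p.1 ≠ p.2)).card ≤
          t ^ 2 := by
        refine (Finset.card_filter_le _ _).trans ?_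
        simp [sq]
      exact_mod_cast this
  · intro e he
    refine le_trans (pr_mono ?_) (pr_strings_le (K := K) (fun j i => x j (i, e i)) ?_)
    · intro σ hσ j
      obtain ⟨l, hl⟩ := hσ j
      exact ⟨l, funext hl⟩
    · intro j j' hjj
      by_contra hne
      apply he
      refine ⟨(j, j'), by simpa using hne, ?_⟩
      intro i
      exact congrFun hjj i

/-- A large set contains many points which are far from each other. -/
theorem exists_far {X : Type} [Fintype X] [DecidableEq X] (far : X → X → Prop)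
    (hsymm : ∀ x y, far x y → far y x) {V : ℕ} (hV : ∀ x, Set.ncard {y | ¬ far x y} ≤ V)
    (t : ℕ) : ∀ S : Set X, t * V < S.ncard →
      ∃ x : Fin (t + 1) → X, (∀ j, x j ∈ S) ∧ ∀ j j', j ≠ j' → far (x j) (x j') := by
  induction t with
  | zero =>
    intro S hS
    rw [Nat.zero_mul, Set.ncard_pos] at hS
    obtain ⟨x, hx⟩ := hS
    refine ⟨fun _ => x, fun _ => hx, ?_⟩
    intro j j' hjj
    exact absurd (Fin.ext (by omega)) hjj
  | succ t ih =>
    intro S hS
    have hne : S.Nonempty := by
      rw [← Set.ncard_pos]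
      omega
    obtain ⟨x0, hx0⟩ := hne
    have h1 : S.ncard ≤ (S ∩ {y | far x0 y}).ncard + Set.ncard {y | ¬ far x0 y} := by
      refine le_trans (Set.ncard_le_ncard ?_ (Set.toFinite _)) (Set.ncard_union_le _ _)
      intro y hy
      by_cases h : far x0 y
      · exact Or.inl ⟨hy, h⟩
      · exact Or.inr h
    have h2 := hV x0
    obtain ⟨x, hxS, hx⟩ := ih (S ∩ {y | far x0 y}) (by
      have : (t + 1) * V = t * V + V := by ring
      omega)
    refine ⟨Fin.cons x0 x, ?_, ?_⟩
    · intro j
      refine Fin.cases ?_ ?_ j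
      · exact hx0
      · intro j
        exact (hxS j).1
    · intro j
      refine Fin.cases ?_ ?_ j
      · intro j'
        refine Fin.cases ?_ ?_ j'
        · intro h; exact absurd rfl h
        · intro j' _
          exact (hxS j').2
      · intro j j'
        refine Fin.cases ?_ ?_ j'
        · intro _
          exact hsymm _ _ (hxS j).2
        · intro j' hne
          exact hx j j' fun h => hne (by rw [h])

end Pool.Agent.W970.Tri
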