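import Pool.Agent.W970.Tri.Family

/-!
# Existence of the family
-/

open Finset

namespace Pool.Agent.W970.Tri

/-- the size of a Hamming ball -/
theorem ball_le {ι : Type} [Fintype ι] [DecidableEq ι] {z : ℝ} (hz0 : 0 < z) (hz1 : z ≤ 1)
    (ρ : ℕ) (x : ι → Bool) :
    (Set.ncard {y : ι → Bool | hammingDist x y ≤ ρ} : ℝ) * z ^ ρ ≤ (1 + z) ^ Fintype.card ι := by
  classical
  have h1 : (∑ y : ι → Bool, ∏ i, (if x i ≠ y i then z else 1)) = (1 + z) ^ Fintype.card ι := by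
    have h := Finset.prod_univ_sum (fun _ : ι => (Finset.univ : Finset Bool))
      (fun i b => if x i ≠ b then z else (1 : ℝ))
    rw [Fintype.piFinset_univ] at h
    rw [← h]
    have h2 : ∀ i, (∑ b : Bool, if x i ≠ b then z else (1 : ℝ)) = 1 + z := by
      intro i
      rw [Fintype.sum_bool]
      cases x i <;> simp [add_comm]
    rw [Finset.prod_congr rfl fun i _ => h2 i]
    simp
  rw [← h1]
  have h3 : ∀ y : ι → Bool, (∏ i, (if x i ≠ y i then z else 1)) = z ^ hammingDist x y := by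
    intro y
    rw [Finset.prod_ite]
    simp [hammingDist]
  rw [Finset.sum_congr rfl fun y _ => h3 y]
  have h4 : {y : ι → Bool | hammingDist x y ≤ ρ} =
      ((Finset.univ.filter fun y : ι → Bool => hammingDist x y ≤ ρ : Finset _) : Set _) := by
    ext; simp
  rw [h4, Set.ncard_coe_finset, ← nsmul_eq_mul, ← Finset.sum_const]
  refine le_trans (Finset.sum_le_sum ?_)
    (Finset.sum_le_sum_of_subset_of_nonneg (Finset.filter_subset _ _) ?_)
  · intro y hy
    exact pow_le_pow_of_le_one hz0.le hz1 (Finset.mem_filter.1 hy).2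
  · intro y _ _
    positivity

variable {w g K : ℕ}

theorem pr_cover_le [NeZero g] [NeZero K] {b N : ℕ} (hb : b ≤ w) (hK : K = 2 ^ (w - b)) :
    pr {ω : Fin N → Om w g K × Om w g K | ∃ p ∈ (Finset.univ : Finset (Pt w g × Pt w g)),
      ∀ i, ¬ (Hit (ω i).1 p.1 ∧ Hit (ω i).2 p.2)} ≤
      2 ^ (2 * (w * g)) * (1 - (1 / 2) ^ (2 * b + 2)) ^ N := by
  classical
  refine (pr_exists_le' _ _ (q := (1 - (1 / 2) ^ (2 * b + 2)) ^ N) ?_).trans ?_
  · rintro ⟨x, y⟩ _
    have h1 := pr_pi (Ω := Om w g K × Om w g K) (ι := Fin N)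
      (fun _ => ({o | Hit o x} ×ˢ {o | Hit o y})ᶜ)
    have h2 : {ω : Fin N → Om w g K × Om w g K | ∀ i, ¬ (Hit (ω i).1 x ∧ Hit (ω i).2 y)} =
        {ω : Fin N → Om w g K × Om w g K | ∀ i, ω i ∈ ({o | Hit o x} ×ˢ {o | Hit o y})ᶜ} := by
      ext ω
      simp
    simp only
    rw [h2, h1, pr_compl, pr_prod]
    simp only [Finset.prod_const, Finset.card_univ, Fintype.card_fin]
    have hx := le_pr_hit (K := K) hb hK x
    have hy := le_pr_hit (K := K) hb hK y
    have cx := pr_compl (Ω := Om w g K) {o | Hit o x}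
    have cy := pr_compl (Ω := Om w g K) {o | Hit o y}
    have ex : pr {o : Om w g K | Hit o x}ᶜ = pr {o : Om w g K | ¬ Hit o x} := rfl
    have ey : pr {o : Om w g K | Hit o y}ᶜ = pr {o : Om w g K | ¬ Hit o y} := rfl
    have px : ((1 : ℝ) / 2) ^ (b + 1) ≤ pr {o : Om w g K | Hit o x} := by linarith
    have py : ((1 : ℝ) / 2) ^ (b + 1) ≤ pr {o : Om w g K | Hit o y} := by linarith
    have lx := pr_le_one (Ω := Om w g K) {o | Hit o x}
    have ly := pr_le_one (Ω := Om w g K) {o | Hit o y}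
    have hmul : ((1 : ℝ) / 2) ^ (2 * b + 2) ≤
        pr {o : Om w g K | Hit o x} * pr {o : Om w g K | Hit o y} := by
      calc ((1 : ℝ) / 2) ^ (2 * b + 2) = (1 / 2) ^ (b + 1) * (1 / 2) ^ (b + 1) := by
            rw [← pow_add]; congr 1; ring
        _ ≤ _ := mul_le_mul px py (by positivity) (pr_nonneg _)
    apply pow_le_pow_left₀
    · have : pr {o : Om w g K | Hit o x} * pr {o : Om w g K | Hit o y} ≤ 1 * 1 :=
        mul_le_mul lx ly (pr_nonneg _) (by norm_num)
      linarith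
    · linarith
  · apply le_of_eq
    congr 1
    simp only [Finset.card_univ, Fintype.card_prod, Fintype.card_fun, Fintype.card_fin,
      Fintype.card_bool]
    push_cast
    rw [← pow_add]
    congr 1
    ring

theorem pr_inter_le [NeZero g] [NeZero K] {N r t ρ : ℕ} (π : Om w g K × Om w g K → Om w g K)
    (hπ : ∀ S : Set (Om w g K), pr {o | π o ∈ S} = pr S) :
    pr {ω : Fin N → Om w g K × Om w g K |
      ∃ p ∈ (Finset.powersetCard (r + 1) (Finset.univ : Finset (Fin N))) ×ˢ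
        ((Finset.univ : Finset (Fin (t + 1) → Pt w g)).filter fun x =>
          ∀ j j', j ≠ j' → ρ < hammingDist (x j) (x j')),
      ∀ i ∈ p.1, ∀ j, Hit (π (ω i)) (p.2 j)} ≤
      (N : ℝ) ^ (r + 1) * 2 ^ (w * g * (t + 1)) *
        (((t + 1 : ℕ) : ℝ) ^ 2 * Real.exp (-(ρ : ℝ) / g) + (K * (1 / 2) ^ w) ^ (t + 1)) ^ (r + 1)
      := by
  classical
  refine (pr_exists_le' _ _ (q := (((t + 1 : ℕ) : ℝ) ^ 2 * Real.exp (-(ρ : ℝ) / g) +
    (K * (1 / 2) ^ w) ^ (t + 1)) ^ (r + 1)) ?_).trans ?_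
  · rintro ⟨T, x⟩ hp
    rw [Finset.mem_product, Finset.mem_powersetCard, Finset.mem_filter] at hp
    obtain ⟨⟨_, hT⟩, _, hx⟩ := hp
    have h1 := pr_pi_subset (Ω := Om w g K × Om w g K) (ι := Fin N) T
      {o | ∀ j, Hit (π o) (x j)}
    have h2 : {ω : Fin N → Om w g K × Om w g K | ∀ i ∈ T, ∀ j, Hit (π (ω i)) (x j)} =
      {ω | ∀ i ∈ T, ω i ∈ {o | ∀ j, Hit (π o) (x j)}} := rfl
    simp only
    simp only at hT hx
    rw [h2, h1, hT]
    apply pow_le_pow_left₀ (pr_nonneg _)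
    have h3 := hπ {o | ∀ j, Hit o (x j)}
    have h4 := pr_far_le (K := K) x hx
    have h5 : {o : Om w g K × Om w g K | π o ∈ {o | ∀ j, Hit o (x j)}} =
      {o | ∀ j, Hit (π o) (x j)} := rfl
    rw [← h5, h3]
    exact h4
  · apply mul_le_mul_of_nonneg_right _ (by positivity)
    rw [Finset.card_product, Finset.card_powersetCard]
    have h1 : (Finset.univ : Finset (Fin N)).card.choose (r + 1) ≤ N ^ (r + 1) := by
      simpa using Nat.choose_le_pow N (r + 1)
    have h2 : ((Finset.univ : Finset (Fin (t + 1) → Pt w g)).filter fun x =>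
          ∀ j j', j ≠ j' → ρ < hammingDist (x j) (x j')).card ≤ 2 ^ (w * g * (t + 1)) := by
      refine (Finset.card_filter_le _ _).trans ?_
      simp only [Finset.card_univ, Fintype.card_fun, Fintype.card_prod, Fintype.card_fin,
        Fintype.card_bool]
      rw [← pow_mul]
    exact_mod_cast Nat.mul_le_mul h1 h2

theorem pr_fst {Ω : Type} [Fintype Ω] [Nonempty Ω] (S : Set Ω) :
    pr {o : Ω × Ω | o.1 ∈ S} = pr S := by
  have h := pr_prod S (Set.univ : Set Ω)
  rw [pr_univ, mul_one] at h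
  rw [← h]
  congr 1
  ext o
  simp

theorem pr_snd {Ω : Type} [Fintype Ω] [Nonempty Ω] (S : Set Ω) :
    pr {o : Ω × Ω | o.2 ∈ S} = pr S := by
  have h := pr_prod (Set.univ : Set Ω) S
  rw [pr_univ, one_mul] at h
  rw [← h]
  congr 1
  ext o
  simp

/-- **The family.** -/
theorem exists_family [NeZero g] [NeZero K] {N b r t ρ V : ℕ} (hb : b ≤ w)
    (hK : K = 2 ^ (w - b))
    (hV : ∀ x : Pt w g, Set.ncard {y | ¬ ρ < hammingDist x y} ≤ V)
    (h1 : (2 : ℝ) ^ (2 * (w * g)) * (1 - (1 / 2) ^ (2 * b + 2)) ^ N < 1 / 4)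
    (h2 : (N : ℝ) ^ (r + 1) * 2 ^ (w * g * (t + 1)) *
        (((t + 1 : ℕ) : ℝ) ^ 2 * Real.exp (-(ρ : ℝ) / g) + (K * (1 / 2) ^ w) ^ (t + 1)) ^ (r + 1)
        < 1 / 4) :
    ∃ ω : Fin N → Om w g K × Om w g K, (∀ x y, ∃ i, Hit (ω i).1 x ∧ Hit (ω i).2 y) ∧
      (∀ T : Finset (Fin N), T.card = r + 1 →
        Set.ncard {x | ∀ i ∈ T, Hit (ω i).1 x} ≤ t * V) ∧
      (∀ T : Finset (Fin N), T.card = r + 1 →
        Set.ncard {x | ∀ i ∈ T, Hit (ω i).2 x} ≤ t * V) := by
  classical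
  have b1 := pr_cover_le (g := g) (N := N) hb hK
  have b2 := pr_inter_le (w := w) (g := g) (K := K) (N := N) (r := r) (t := t) (ρ := ρ)
    Prod.fst pr_fst
  have b3 := pr_inter_le (w := w) (g := g) (K := K) (N := N) (r := r) (t := t) (ρ := ρ)
    Prod.snd pr_snd
  have hlt := (pr_union_le _ _).trans (add_le_add ((pr_union_le _ _).trans
    (add_le_add b1 b2)) b3)
  obtain ⟨ω, hω⟩ := pr_lt_one (lt_of_le_of_lt hlt (by linarith))
  simp only [Set.mem_union, not_or] at hω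
  obtain ⟨⟨w1, w2⟩, w3⟩ := hω
  have key : ∀ π : Om w g K × Om w g K → Om w g K,
      (ω ∉ {ω : Fin N → Om w g K × Om w g K |
      ∃ p ∈ (Finset.powersetCard (r + 1) (Finset.univ : Finset (Fin N))) ×ˢ
        ((Finset.univ : Finset (Fin (t + 1) → Pt w g)).filter fun x =>
          ∀ j j', j ≠ j' → ρ < hammingDist (x j) (x j')),
      ∀ i ∈ p.1, ∀ j, Hit (π (ω i)) (p.2 j)}) →
      ∀ T : Finset (Fin N), T.card = r + 1 →
        Set.ncard {x | ∀ i ∈ T, Hit (π (ω i)) x} ≤ t * V := by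
    intro π hπ T hT
    by_contra hcon
    push Not at hcon
    obtain ⟨x, hxS, hx⟩ := exists_far (fun x y : Pt w g => ρ < hammingDist x y)
      (fun x y h => by rwa [hammingDist_comm]) hV t _ hcon
    apply hπ
    refine ⟨(T, x), ?_, ?_⟩
    · rw [Finset.mem_product, Finset.mem_powersetCard, Finset.mem_filter]
      exact ⟨⟨Finset.subset_univ _, hT⟩, Finset.mem_univ _, hx⟩
    · intro i hi j
      exact hxS j i hi
  refine ⟨ω, ?_, key Prod.fst w2, key Prod.snd w3⟩
  intro x y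
  by_contra hcon
  push Not at hcon
  apply w1
  refine ⟨(x, y), Finset.mem_univ _, ?_⟩
  intro i hi
  exact hcon i hi.1 hi.2

end Pool.Agent.W970.Tri
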