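import Mathlib

/-!
# Uniform probability on finite types
-/

open Finset

namespace Pool.Agent.W970.Tri

/-- uniform probability -/
noncomputable def pr {Ω : Type} [Fintype Ω] (S : Set Ω) : ℝ := (S.ncard : ℝ) / Fintype.card Ω

section
variable {Ω Ω' : Type} [Fintype Ω] [Fintype Ω']

theorem pr_nonneg (S : Set Ω) : 0 ≤ pr S := by unfold pr; positivity

theorem pr_mono {S T : Set Ω} (h : S ⊆ T) : pr S ≤ pr T := by
  unfold pr
  apply div_le_div_of_nonneg_right _ (by positivity)
  exact_mod_cast Set.ncard_le_ncard h (Set.toFinite _)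

theorem pr_union_le (S T : Set Ω) : pr (S ∪ T) ≤ pr S + pr T := by
  unfold pr
  rw [← add_div]
  apply div_le_div_of_nonneg_right _ (by positivity)
  exact_mod_cast Set.ncard_union_le S T

omit [Fintype Ω] in
theorem ncard_biUnion_le {α : Type} (A : Finset α) (S : α → Set Ω) :
    (⋃ a ∈ A, S a).ncard ≤ ∑ a ∈ A, (S a).ncard := by
  classical
  induction A using Finset.induction_on with
  | empty => simp
  | insert a A ha ih =>
    rw [Finset.set_biUnion_insert, Finset.sum_insert ha]
    exact (Set.ncard_union_le _ _).trans (Nat.add_le_add_left ih _)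

theorem pr_exists_le {α : Type} (A : Finset α) (P : α → Ω → Prop) :
    pr {ω | ∃ a ∈ A, P a ω} ≤ ∑ a ∈ A, pr {ω | P a ω} := by
  unfold pr
  rw [← Finset.sum_div]
  apply div_le_div_of_nonneg_right _ (by positivity)
  have : {ω | ∃ a ∈ A, P a ω} = ⋃ a ∈ A, {ω | P a ω} := by
    ext; simp
  rw [this]
  exact_mod_cast ncard_biUnion_le A _

theorem pr_exists_le' {α : Type} (A : Finset α) (P : α → Ω → Prop) {q : ℝ}
    (h : ∀ a ∈ A, pr {ω | P a ω} ≤ q) :
    pr {ω | ∃ a ∈ A, P a ω} ≤ A.card * q := by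
  refine (pr_exists_le A P).trans ?_
  refine (Finset.sum_le_sum h).trans ?_
  simp

theorem pr_lt_one [Nonempty Ω] {S : Set Ω} (h : pr S < 1) : ∃ ω, ω ∉ S := by
  by_contra hcon
  push Not at hcon
  have hS : S = Set.univ := Set.eq_univ_of_forall hcon
  subst hS
  unfold pr at h
  rw [Set.ncard_univ, Nat.card_eq_fintype_card,
    div_self (by exact_mod_cast Fintype.card_ne_zero)] at h
  exact lt_irrefl _ h

theorem pr_compl [Nonempty Ω] (S : Set Ω) : pr Sᶜ = 1 - pr S := by
  unfold pr
  have h := Set.ncard_add_ncard_compl S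
  rw [Nat.card_eq_fintype_card] at h
  have hc : (Fintype.card Ω : ℝ) ≠ 0 := by
    exact_mod_cast Fintype.card_ne_zero
  rw [eq_sub_iff_add_eq, ← add_div, div_eq_one_iff_eq hc]
  have : (S.ncard : ℝ) + Sᶜ.ncard = Fintype.card Ω := by exact_mod_cast h
  linarith

theorem ncard_pi {ι : Type} [Fintype ι] {β : ι → Type} [∀ i, Fintype (β i)]
    (E : ∀ i, Set (β i)) :
    Set.ncard {ω : ∀ i, β i | ∀ i, ω i ∈ E i} = ∏ i, (E i).ncard := by
  classical
  have : {ω : ∀ i, β i | ∀ i, ω i ∈ E i} =
      ((Fintype.piFinset fun i => (E i).toFinset : Finset _) : Set _) := by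
    ext; simp
  rw [this, Set.ncard_coe_finset, Fintype.card_piFinset]
  exact Finset.prod_congr rfl fun i _ => (Set.ncard_eq_toFinset_card' (E i)).symm

theorem pr_pi {ι : Type} [Fintype ι] [DecidableEq ι] (E : ι → Set Ω) :
    pr {ω : ι → Ω | ∀ i, ω i ∈ E i} = ∏ i, pr (E i) := by
  unfold pr
  rw [ncard_pi, Finset.prod_div_distrib]
  simp

theorem pr_prod (S : Set Ω) (T : Set Ω') : pr (S ×ˢ T) = pr S * pr T := by
  unfold pr
  rw [Set.ncard_prod, Fintype.card_prod]
  push_cast
  rw [mul_div_mul_comm]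

theorem pr_univ [Nonempty Ω] : pr (Set.univ : Set Ω) = 1 := by
  unfold pr
  rw [Set.ncard_univ, Nat.card_eq_fintype_card, div_self]
  exact_mod_cast Fintype.card_ne_zero

theorem pr_le_one [Nonempty Ω] (S : Set Ω) : pr S ≤ 1 := by
  rw [← pr_univ (Ω := Ω)]
  exact pr_mono (Set.subset_univ _)

/-- events on a few coordinates of a product -/
theorem pr_pi_subset [Nonempty Ω] {ι : Type} [Fintype ι] [DecidableEq ι] (T : Finset ι)
    (E : Set Ω) : pr {ω : ι → Ω | ∀ i ∈ T, ω i ∈ E} = pr E ^ T.card := by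
  have : {ω : ι → Ω | ∀ i ∈ T, ω i ∈ E} =
      {ω : ι → Ω | ∀ i, ω i ∈ (if i ∈ T then E else Set.univ)} := by
    ext ω
    constructor
    · intro h i
      split_ifs with hi
      · exact h i hi
      · trivial
    · intro h i hi
      have := h i
      rwa [if_pos hi] at this
  rw [this, pr_pi]
  have h2 : ∀ i, pr (if i ∈ T then E else Set.univ) = if i ∈ T then pr E else 1 := by
    intro i
    split_ifs
    · rfl
    · exact pr_univ
  rw [Finset.prod_congr rfl fun i _ => h2 i]
  rw [Finset.prod_ite]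
  simp

/-- conditioning on the first coordinate -/
theorem pr_fiber_le [Nonempty Ω] [Nonempty Ω'] (S : Set (Ω × Ω')) (Bad : Set Ω) {q : ℝ}
    (hq : 0 ≤ q) (h : ∀ e, e ∉ Bad → pr {σ | (e, σ) ∈ S} ≤ q) : pr S ≤ pr Bad + q := by
  classical
  have hcard : (S.ncard : ℝ) = ∑ e : Ω, (Set.ncard {σ | (e, σ) ∈ S} : ℝ) := by
    have : S.ncard = ∑ e : Ω, Set.ncard {σ | (e, σ) ∈ S} := by
      rw [Set.ncard_eq_toFinset_card']
      rw [Finset.card_eq_sum_card_fiberwise (f := Prod.fst) (t := Finset.univ) (by simp)]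
      apply Finset.sum_congr rfl
      intro e _
      rw [Set.ncard_eq_toFinset_card']
      apply Finset.card_bij (fun p _ => p.2)
      · rintro ⟨a, b⟩ h
        simp only [Finset.mem_filter, Set.mem_toFinset] at h
        obtain ⟨h1, rfl⟩ := h
        simpa using h1
      · rintro ⟨a, b⟩ h ⟨a', b'⟩ h' hb
        simp only [Finset.mem_filter] at h h'
        obtain ⟨_, rfl⟩ := h
        obtain ⟨_, h2⟩ := h'
        simp only at h2 hb
        subst h2 hb
        rfl
      · intro b hb
        refine ⟨(e, b), ?_, rfl⟩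
        simpa using hb
    exact_mod_cast this
  have hΩ : (0 : ℝ) < Fintype.card Ω := by exact_mod_cast Fintype.card_pos
  have hΩ' : (0 : ℝ) < Fintype.card Ω' := by exact_mod_cast Fintype.card_pos
  have h1 : pr S = (∑ e : Ω, pr {σ | (e, σ) ∈ S}) / Fintype.card Ω := by
    unfold pr
    rw [hcard, Fintype.card_prod, ← Finset.sum_div]
    push_cast
    field_simp
  rw [h1, div_le_iff₀ hΩ]
  calc ∑ e : Ω, pr {σ | (e, σ) ∈ S}
      ≤ ∑ e : Ω, ((if e ∈ Bad then 1 else 0) + q) := by
        apply Finset.sum_le_sum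
        intro e _
        split_ifs with he
        · have := pr_le_one {σ | (e, σ) ∈ S}
          linarith
        · have := h e he
          linarith
    _ = (pr Bad + q) * Fintype.card Ω := by
        rw [Finset.sum_add_distrib]
        unfold pr
        rw [Set.ncard_eq_toFinset_card']
        have : (∑ e : Ω, (if e ∈ Bad then (1 : ℝ) else 0)) = (Bad.toFinset.card : ℝ) := by
          rw [← Finset.sum_filter, Finset.sum_const, nsmul_eq_mul, mul_one]
          congr 2
          ext e
          simp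
        rw [this]
        simp only [Finset.sum_const, Finset.card_univ, nsmul_eq_mul]
        field_simp
end

end Pool.Agent.W970.Tri
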