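import Pool.Agent.W970.Tri.CircuitDefs
import Pool.Agent.W970.Tri.Main
import Pool.Agent.H559R4.SatDefs

/-!
# Circuits of monotone real gates for CNF-SAT: the tests
-/

open Finset Filter Pool.Agent.H559R4

namespace Pool.Agent.W970.Tri

section tests

variable {w g K N n M : ℕ} (ω : Fin N → Om w g K × Om w g K)

/-- the variable of a position -/
def emb (h : w * g ≤ n) (p : Fin w × Fin g) : Fin n := Fin.castLE h (finProdFinEquiv p)

theorem emb_inj (h : w * g ≤ n) : Function.Injective (emb (w := w) (g := g) h) :=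
  (Fin.castLE_injective h).comp finProdFinEquiv.injective

/-- The incidence matrix with the rows `(i, l)`: for `i ∈ T` the row `(i, l)` is the tautology, for
the others it is the clause that excludes the string `l` of `o i`. All other rows are
tautologies. -/
def mat (h : w * g ≤ n) (o : Fin N → Om w g K) (T : Fin N → Prop) [DecidablePred T] :
    Fin M × Fin n × Bool → Bool := fun q =>
  if hq : q.1.1 < N * K then
    let r : Fin N × Fin K := finProdFinEquiv.symm ⟨q.1.1, hq⟩
    if T r.1 then true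
    else decide (∃ j, q.2.1 = emb h (j, (o r.1).1 j) ∧ q.2.2 = !((o r.1).2 r.2 j))
  else true

theorem sat_mat (h : w * g ≤ n) (hn : 0 < n) (o : Fin N → Om w g K) (T : Fin N → Prop)
    [DecidablePred T] (x : Pt w g) (hx : ∀ i, ¬ T i → ¬ Hit (o i) x) :
    Sat (mat (M := M) h o T) := by
  classical
  -- an assignment extending `x`
  obtain ⟨z, hz⟩ : ∃ z : Fin n → Bool, ∀ p, z (emb h p) = x p := by
    refine ⟨fun v => if hv : ∃ p, emb h p = v then x hv.choose else false, ?_⟩
    intro p
    have hv : ∃ p', emb h p' = emb h p := ⟨p, rfl⟩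
    simp only [dif_pos hv]
    congr 1
    exact emb_inj h hv.choose_spec
  refine ⟨z, fun j => ?_⟩
  unfold mat
  by_cases hj : j.1 < N * K
  · simp only [hj, dite_true]
    by_cases hT : T (finProdFinEquiv.symm ⟨j.1, hj⟩).1
    · refine ⟨⟨0, hn⟩, ?_⟩
      rw [if_pos hT]
    · have := hx _ hT
      unfold Hit at this
      push Not at this
      obtain ⟨u, hu⟩ := this (finProdFinEquiv.symm ⟨j.1, hj⟩).2
      refine ⟨emb h (u, (o (finProdFinEquiv.symm ⟨j.1, hj⟩).1).1 u), ?_⟩
      rw [if_neg hT, decide_eq_true_eq]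
      refine ⟨u, rfl, ?_⟩
      rw [hz]
      revert hu
      cases x (u, (o (finProdFinEquiv.symm ⟨j.1, hj⟩).1).1 u) <;>
        cases (o (finProdFinEquiv.symm ⟨j.1, hj⟩).1).2 (finProdFinEquiv.symm ⟨j.1, hj⟩).2 u <;>
        simp
  · refine ⟨⟨0, hn⟩, ?_⟩
    simp only [hj, dite_false]

theorem not_sat_mat (h : w * g ≤ n) (hM : N * K ≤ M) (o : Fin N → Om w g K)
    (T : Fin N → Prop) [DecidablePred T] (hx : ∀ x, ∃ i, ¬ T i ∧ Hit (o i) x) :
    ¬ Sat (mat (M := M) h o T) := by
  rintro ⟨z, hz⟩
  obtain ⟨i, hT, l, hl⟩ := hx fun p => z (emb h p)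
  have hlt := (finProdFinEquiv (i, l)).2
  obtain ⟨v, hv⟩ := hz ⟨finProdFinEquiv (i, l), hlt.trans_le hM⟩
  unfold mat at hv
  simp only [hlt, dite_true, Fin.eta, Equiv.symm_apply_apply] at hv
  rw [if_neg hT, decide_eq_true_eq] at hv
  obtain ⟨j, rfl, hj⟩ := hv
  have hlj : z (emb h (j, (o i).1 j)) = (o i).2 l j := hl j
  rw [hlj] at hj
  revert hj
  cases (o i).2 l j <;> simp

/-- a literal which is present in a positive test and absent from a negative test -/
theorem mat_diff (h : w * g ≤ n) (o : Fin N → Om w g K) (T T' : Fin N → Prop)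
    [DecidablePred T] [DecidablePred T'] (q : Fin M × Fin n × Bool)
    (h1 : mat h o T q = true) (h2 : mat h o T' q = false) :
    ∃ hq : q.1.1 < N * K, T (finProdFinEquiv.symm ⟨q.1.1, hq⟩ : Fin N × Fin K).1 ∧
      ¬ T' (finProdFinEquiv.symm ⟨q.1.1, hq⟩ : Fin N × Fin K).1 := by
  unfold mat at h1 h2
  by_cases hq : q.1.1 < N * K
  · simp only [hq, dite_true] at h1 h2
    refine ⟨hq, ?_, ?_⟩
    · by_contra hT
      rw [if_neg hT] at h1
      split_ifs at h2
      rw [h1] at h2
      exact absurd h2 (by simp)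
    · intro hT'
      rw [if_pos hT'] at h2
      exact absurd h2 (by simp)
  · simp only [hq, dite_false] at h2
    exact absurd h2 (by simp)

/-- positive tests -/
noncomputable def matP (h : w * g ≤ n) (x : Pt w g) : Fin M × Fin n × Bool → Bool :=
  @mat w g K N n M h (fun i => (ω i).1) (fun i => Hit (ω i).1 x) (Classical.decPred _)

/-- negative tests -/
noncomputable def matN (h : w * g ≤ n) (y : Pt w g) : Fin M × Fin n × Bool → Bool :=
  @mat w g K N n M h (fun i => (ω i).1) (fun i => ¬ Hit (ω i).2 y) (Classical.decPred _)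

theorem sat_matP (h : w * g ≤ n) (hn : 0 < n) (x : Pt w g) : Sat (matP (M := M) ω h x) :=
  @sat_mat w g K N n M h hn _ _ (Classical.decPred _) x fun _ hi => hi

theorem not_sat_matN (h : w * g ≤ n) (hM : N * K ≤ M)
    (hω : ∀ x y, ∃ i, Hit (ω i).1 x ∧ Hit (ω i).2 y) (y : Pt w g) :
    ¬ Sat (matN (M := M) ω h y) := by
  apply @not_sat_mat w g K N n M h hM _ _ (Classical.decPred _)
  intro x
  obtain ⟨i, h1, h2⟩ := hω x y
  exact ⟨i, not_not.2 h2, h1⟩

theorem mat_leaf (h : w * g ≤ n) (q : Fin M × Fin n × Bool) (hN : Nonempty (Fin N)) :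
    ∃ i : Fin N, ∀ x y, matP ω h x q = true → matN ω h y q = false →
      Hit (ω i).1 x ∧ Hit (ω i).2 y := by
  by_cases hq : q.1.1 < N * K
  · refine ⟨(finProdFinEquiv.symm ⟨q.1.1, hq⟩ : Fin N × Fin K).1, ?_⟩
    intro x y hx hy
    obtain ⟨_, h1, h2⟩ := @mat_diff w g K N n M h _ _ _ (Classical.decPred _)
      (Classical.decPred _) q hx hy
    exact ⟨h1, not_not.1 h2⟩
  · obtain ⟨i⟩ := hN
    refine ⟨i, ?_⟩
    intro x y hx hy
    obtain ⟨hq', _⟩ := @mat_diff w g K N n M h _ _ _ (Classical.decPred _)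
      (Classical.decPred _) q hx hy
    exact absurd hq' hq

end tests

theorem RealCircuit.val_eq {ι : Type} (C : RealCircuit ι) (x : ι → Bool) (g : ℕ) :
    C.val x g = C.fn g fun h => Sum.elim (fun i => if x i = true then 1 else 0)
    (fun g' : Fin g => C.val x g') (C.wire g h) := by
  rw [RealCircuit.val]

/-- the circuit is a triangle dag on the tests -/
theorem isDag_of_circuit {ι I X Y : Type} {pos : I → X → Prop} {neg : I → Y → Prop} {d : ℕ}
    (C : RealCircuit ι) (hC : C.IsMono d) (F : X → ι → Bool) (G : Y → ι → Bool)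
    (hleaf : ∀ q, ∃ i, ∀ x y, F x q = true → G y q = false → pos i x ∧ neg i y) :
    IsDag pos neg d C.size fun g => ⟨fun x => C.val (F x) g, fun y => C.val (G y) g⟩ := by
  intro g hg
  obtain ⟨hd, hm⟩ := hC g hg
  refine ⟨C.fanin g, fun h => ⟨fun x => Sum.elim (fun i => if F x i = true then 1 else 0)
    (fun g' : Fin g => C.val (F x) g') (C.wire g h),
    fun y => Sum.elim (fun i => if G y i = true then 1 else 0)
    (fun g' : Fin g => C.val (G y) g') (C.wire g h)⟩, hd, ?_, ?_⟩
  · intro h
    cases hw : C.wire g h with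
    | inl q =>
      right
      obtain ⟨i, hi⟩ := hleaf q
      refine ⟨i, fun x y hxy => ?_⟩
      simp only [hw, Sum.elim_inl] at hxy
      apply hi x y
      · by_contra hF
        rw [if_neg hF] at hxy
        split_ifs at hxy <;> norm_num at hxy
      · by_contra hG
        rw [Bool.not_eq_false] at hG
        rw [if_pos hG] at hxy
        split_ifs at hxy <;> norm_num at hxy
    | inr g' =>
      left
      refine ⟨g', g'.2, ?_⟩
      simp only [hw, Sum.elim_inr]
  · intro x y hxy
    by_contra hcon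
    push Not at hcon
    simp only at hxy
    rw [RealCircuit.val_eq C (G y) g, RealCircuit.val_eq C (F x) g] at hxy
    exact absurd hxy (not_lt.2 (hm hcon))

end Pool.Agent.W970.Tri
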