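import Mathlib

/-!
# Symmetric approximation for triangle dags

`X`, `Y` are the sets of positive and negative tests, `pos i`, `neg i` (`i : I`) are
the coordinates. A node is a pair of real labellings `a : X → ℝ`, `b : Y → ℝ`;
the node *separates* `(x, y)` when `b y < a x`.
-/

open Finset

namespace Pool.Agent.W970.Tri

variable {X Y I : Type}

/-- Growing sets of coordinates with a choice function: if every point `z` of `E` can always be
followed to a new coordinate holding at `z`, `E` is covered by `q ^ k` sets, each of them the set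
of points at which `k` different coordinates hold. -/
theorem tree_cover {Z : Type} [Fintype Z] [DecidableEq I] (P : I → Z → Prop)
    (ch : Finset I → Finset I) (k q A : ℕ) (E : Set Z)
    (hch : ∀ T, (ch T).card ≤ q)
    (hstep : ∀ z ∈ E, ∀ T : Finset I, T.card < k → (∀ i ∈ T, P i z) → ∃ i ∈ ch T, i ∉ T ∧ P i z)
    (hA : ∀ T : Finset I, T.card = k → Set.ncard {z | ∀ i ∈ T, P i z} ≤ A) :
    Set.ncard E ≤ q ^ k * A := by
  classical
  have key : ∀ j ≤ k, ∃ L : Finset (Finset I), L.card ≤ q ^ j ∧ (∀ T ∈ L, T.card = j) ∧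
      ∀ z ∈ E, ∃ T ∈ L, ∀ i ∈ T, P i z := by
    intro j
    induction j with
    | zero =>
      intro _
      refine ⟨{∅}, by simp, by simp, ?_⟩
      intro z _
      exact ⟨∅, by simp, by simp⟩
    | succ j ih =>
      intro hj
      obtain ⟨L, hL, hc, hz⟩ := ih (by omega)
      refine ⟨L.biUnion fun T => ((ch T) \ T).image fun i => insert i T, ?_, ?_, ?_⟩
      · calc _ ≤ L.card * q := by
              apply Finset.card_biUnion_le_card_mul
              intro T _
              exact Finset.card_image_le.trans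
                ((Finset.card_le_card Finset.sdiff_subset).trans (hch T))
          _ ≤ q ^ j * q := Nat.mul_le_mul_right _ hL
          _ = q ^ (j + 1) := (pow_succ _ _).symm
      · intro T hT
        simp only [Finset.mem_biUnion, Finset.mem_image, Finset.mem_sdiff] at hT
        obtain ⟨S, hS, i, ⟨_, hi⟩, rfl⟩ := hT
        rw [Finset.card_insert_of_notMem hi, hc S hS]
      · intro z hzE
        obtain ⟨T, hT, hTz⟩ := hz z hzE
        obtain ⟨i, hi, hiT, hiz⟩ := hstep z hzE T (by rw [hc T hT]; omega) hTz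
        refine ⟨insert i T, ?_, ?_⟩
        · simp only [Finset.mem_biUnion, Finset.mem_image, Finset.mem_sdiff]
          exact ⟨T, hT, i, ⟨hi, hiT⟩, rfl⟩
        · intro i' hi'
          rcases Finset.mem_insert.1 hi' with rfl | h
          · exact hiz
          · exact hTz i' h
  obtain ⟨L, hL, hc, hz⟩ := key k le_rfl
  have hsub : E ⊆ ⋃ T ∈ L, {z | ∀ i ∈ T, P i z} := by
    intro z hzE
    obtain ⟨T, hT, hTz⟩ := hz z hzE
    simp only [Set.mem_iUnion]
    exact ⟨T, hT, hTz⟩
  calc Set.ncard E ≤ Set.ncard (⋃ T ∈ L, {z | ∀ i ∈ T, P i z}) :=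
        Set.ncard_le_ncard hsub (Set.toFinite _)
    _ ≤ ∑ T ∈ L, Set.ncard {z | ∀ i ∈ T, P i z} := by
        clear hz hsub hL
        induction L using Finset.induction_on with
        | empty => simp
        | insert T L hTL ih =>
          rw [Finset.sum_insert hTL, Finset.set_biUnion_insert]
          refine (Set.ncard_union_le _ _).trans ?_
          exact Nat.add_le_add_left (ih fun S hS => hc S (Finset.mem_insert_of_mem hS)) _
    _ ≤ ∑ _T ∈ L, A := Finset.sum_le_sum fun T hT => hA T (hc T hT)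
    _ = L.card * A := by simp
    _ ≤ q ^ k * A := Nat.mul_le_mul_right _ hL

/-- A node: the labels of the positive and of the negative tests. -/
structure Lab (X Y : Type) where
  /-- label of the positive tests -/
  a : X → ℝ
  /-- label of the negative tests -/
  b : Y → ℝ

variable (pos : I → X → Prop) (neg : I → Y → Prop)

/-- The family of clauses `C` (one set of clauses for every threshold) approximates the node `p`
outside of the error sets. -/
structure App (s : ℕ) (Ep : Set X) (En : Set Y) (p : Lab X Y) (C : ℝ → Set (Finset I)) :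
    Prop where
  size : ∀ b, ∀ c ∈ C b, c.card ≤ s
  mono : ∀ b b', b ≤ b' → C b ⊆ C b'
  snd : ∀ x, x ∉ Ep → ∀ b, b < p.a x → ∀ c ∈ C b, ∃ i ∈ c, pos i x
  cpl : ∀ y, y ∉ En → ∀ b, p.b y ≤ b → ∃ c ∈ C b, ∀ i ∈ c, neg i y

variable {pos neg}

theorem App.weaken {s : ℕ} {Ep Ep' : Set X} {En En' : Set Y} {p : Lab X Y}
    {C : ℝ → Set (Finset I)} (h : App pos neg s Ep En p C) (hp : Ep ⊆ Ep') (hn : En ⊆ En') :
    App pos neg s Ep' En' p C where
  size := h.size
  mono := h.mono
  snd x hx := h.snd x fun h' => hx (hp h')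
  cpl y hy := h.cpl y fun h' => hy (hn h')

variable (pos neg)

/-- A leaf: it separates only pairs which share a fixed coordinate. -/
def IsLeaf (p : Lab X Y) : Prop := ∃ i, ∀ x y, p.b y < p.a x → pos i x ∧ neg i y

variable {pos neg}

theorem App.leaf {s : ℕ} (hs : 1 ≤ s) {p : Lab X Y} (hp : IsLeaf pos neg p) :
    ∃ C, App pos neg s ∅ ∅ p C := by
  classical
  obtain ⟨i, hi⟩ := hp
  refine ⟨fun b => {c | ∃ y, p.b y ≤ b ∧ c = if neg i y then {i} else ∅}, ?_, ?_, ?_, ?_⟩
  · rintro b c ⟨y, _, rfl⟩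
    split_ifs
    · simpa using hs
    · simp
  · rintro b b' hb c ⟨y, hy, rfl⟩
    exact ⟨y, hy.trans hb, rfl⟩
  · rintro x _ b hb c ⟨y, hy, rfl⟩
    have := hi x y (hy.trans_lt hb)
    rw [if_pos this.2]
    exact ⟨i, by simp, this.1⟩
  · intro y _ b hb
    refine ⟨_, ⟨y, hb, rfl⟩, ?_⟩
    intro j hj
    split_ifs at hj with h
    · rw [Finset.mem_singleton] at hj
      subst hj
      exact h
    · simp at hj

/-- **One step of the approximation.** -/
theorem App.step [Fintype X] [Fintype Y] [Fintype I] {s r A B k d : ℕ} (hk : k ≤ d)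
    {Ep : Set X} {En : Set Y} (p : Lab X Y) (q : Fin k → Lab X Y)
    (C : Fin k → ℝ → Set (Finset I)) (hq : ∀ h, App pos neg s Ep En (q h) (C h))
    (hp : ∀ x y, p.b y < p.a x → ∃ h, (q h).b y < (q h).a x)
    (hA : ∀ T : Finset I, T.card = r + 1 → Set.ncard {x | ∀ i ∈ T, pos i x} ≤ A)
    (hB : ∀ T : Finset I, T.card = s + 1 → Set.ncard {y | ∀ i ∈ T, neg i y} ≤ B) :
    ∃ (E : Set X) (F : Set Y) (D : ℝ → Set (Finset I)),
      Set.ncard E ≤ (d * s) ^ (r + 1) * A ∧ Set.ncard F ≤ r ^ (s + 1) * B ∧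
      App pos neg s (Ep ∪ E) (En ∪ F) p D := by
  classical
  -- the unions of clauses of the children
  let K : Y → Set (Finset I) := fun y =>
    {u | ∃ c : Fin k → Finset I, (∀ h, c h ∈ C h ((q h).b y)) ∧ u = Finset.univ.biUnion c}
  have hKcard : ∀ y, ∀ u ∈ K y, u.card ≤ d * s := by
    rintro y u ⟨c, hc, rfl⟩
    calc _ ≤ (Finset.univ : Finset (Fin k)).card * s := by
            apply Finset.card_biUnion_le_card_mul
            intro h _
            exact (hq h).size _ _ (hc h)
      _ = k * s := by simp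
      _ ≤ d * s := Nat.mul_le_mul_right _ hk
  have hKpos : ∀ x, x ∉ Ep → ∀ y, p.b y < p.a x → ∀ u ∈ K y, ∃ i ∈ u, pos i x := by
    rintro x hx y hxy u ⟨c, hc, rfl⟩
    obtain ⟨h, hh⟩ := hp x y hxy
    obtain ⟨i, hi, hix⟩ := (hq h).snd x hx _ hh _ (hc h)
    exact ⟨i, Finset.mem_biUnion.2 ⟨h, Finset.mem_univ _, hi⟩, hix⟩
  have hKneg : ∀ y, y ∉ En → ∃ u ∈ K y, ∀ i ∈ u, neg i y := by
    intro y hy
    have : ∀ h, ∃ c ∈ C h ((q h).b y), ∀ i ∈ c, neg i y := fun h => (hq h).cpl y hy _ le_rfl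
    choose c hc hcy using this
    refine ⟨_, ⟨c, hc, rfl⟩, ?_⟩
    intro i hi
    obtain ⟨h, _, hi⟩ := Finset.mem_biUnion.1 hi
    exact hcy h i hi
  -- clauses with threshold
  let G : ℝ → Set (Finset I) := fun b => {u | ∃ y, p.b y ≤ b ∧ u ∈ K y}
  have hGmono : ∀ b b', b ≤ b' → G b ⊆ G b' := by
    rintro b b' hb u ⟨y, hy, hu⟩
    exact ⟨y, hy.trans hb, hu⟩
  -- monomials
  let D : ℝ → Set (Finset I) := fun b => {T | T.card ≤ r ∧ ∀ u ∈ G b, ¬ Disjoint u T}
  have hDanti : ∀ b b', b ≤ b' → D b' ⊆ D b := by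
    rintro b b' hb T ⟨h1, h2⟩
    exact ⟨h1, fun u hu => h2 u (hGmono b b' hb hu)⟩
  let C' : ℝ → Set (Finset I) := fun b => {c | c.card ≤ s ∧ ∀ T ∈ D b, ¬ Disjoint c T}
  let E : Set X := {x | ∃ b, (∀ u ∈ G b, ∃ i ∈ u, pos i x) ∧ ∀ T ∈ D b, ¬ ∀ i ∈ T, pos i x}
  let F : Set Y := {y | ∃ b, (∃ u ∈ G b, ∀ i ∈ u, neg i y) ∧ ∀ c ∈ C' b, ¬ ∀ i ∈ c, neg i y}
  refine ⟨E, F, C', ?_, ?_, ?_⟩
  · -- choice function for the positive tests
    have hex : ∀ T : Finset I, ∃ u : Finset I, u.card ≤ d * s ∧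
        ∀ y, ∀ u' ∈ K y, Disjoint u' T → Disjoint u T ∧ ∃ y', p.b y' ≤ p.b y ∧ u ∈ K y' := by
      intro T
      by_cases hT : ∃ y, ∃ u ∈ K y, Disjoint u T
      · let S : Finset Y := Finset.univ.filter fun y => ∃ u ∈ K y, Disjoint u T
        have hS : S.Nonempty := by
          obtain ⟨y, hy⟩ := hT
          exact ⟨y, by simpa [S] using hy⟩
        obtain ⟨y', hy', hmin⟩ := S.exists_min_image (fun y => p.b y) hS
        obtain ⟨u, hu, huT⟩ := (Finset.mem_filter.1 hy').2
        refine ⟨u, hKcard _ _ hu, ?_⟩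
        intro y u' hu' hd
        exact ⟨huT, y', hmin y (Finset.mem_filter.2 ⟨Finset.mem_univ _, u', hu', hd⟩), hu⟩
      · refine ⟨∅, by simp, ?_⟩
        intro y u' hu' hd
        exact absurd ⟨y, u', hu', hd⟩ hT
    choose ch hch1 hch2 using hex
    apply tree_cover pos ch (r + 1) (d * s) A E hch1 _ hA
    rintro x ⟨b, hb1, hb2⟩ T hTc hTx
    have hTD : T ∉ D b := fun h => hb2 T h hTx
    have : ∃ u ∈ G b, Disjoint u T := by
      by_contra hcon
      push Not at hcon
      exact hTD ⟨by omega, hcon⟩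
    obtain ⟨u', ⟨y, hy, hu'⟩, hd⟩ := this
    obtain ⟨hdis, y', hy', hch⟩ := hch2 T y u' hu' hd
    obtain ⟨i, hi, hix⟩ := hb1 (ch T) ⟨y', hy'.trans hy, hch⟩
    exact ⟨i, hi, Finset.disjoint_left.1 hdis hi, hix⟩
  · -- choice function for the negative tests
    have hex : ∀ c : Finset I, ∃ T : Finset I, T.card ≤ r ∧
        ∀ b, ∀ T' ∈ D b, Disjoint c T' → Disjoint c T ∧ T ∈ D b := by
      intro c
      by_cases hc : ∃ b, ∃ T ∈ D b, Disjoint c T
      · -- choose the monomial which survives longest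
        let m : Finset I → WithTop ℝ := fun T =>
          (Finset.univ.filter fun y => ∃ u ∈ K y, Disjoint u T).inf fun y => (p.b y : WithTop ℝ)
        have hm : ∀ T : Finset I, ∀ b : ℝ, T ∈ D b ↔ T.card ≤ r ∧ (b : WithTop ℝ) < m T := by
          intro T b
          constructor
          · rintro ⟨h1, h2⟩
            refine ⟨h1, ?_⟩
            rw [Finset.lt_inf_iff (WithTop.coe_lt_top b)]
            intro y hy
            obtain ⟨u, hu, hd⟩ := (Finset.mem_filter.1 hy).2
            rw [WithTop.coe_lt_coe]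
            by_contra hle
            exact h2 u ⟨y, not_lt.1 hle, hu⟩ hd
          · rintro ⟨h1, h2⟩
            refine ⟨h1, ?_⟩
            rintro u ⟨y, hy, hu⟩ hd
            rw [Finset.lt_inf_iff (WithTop.coe_lt_top b)] at h2
            have := h2 y (Finset.mem_filter.2 ⟨Finset.mem_univ _, u, hu, hd⟩)
            rw [WithTop.coe_lt_coe] at this
            exact absurd hy (not_le.2 this)
        let S : Finset (Finset I) := Finset.univ.filter fun T => T.card ≤ r ∧ Disjoint c T
        have hS : S.Nonempty := by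
          obtain ⟨b, T, hT, hd⟩ := hc
          exact ⟨T, Finset.mem_filter.2 ⟨Finset.mem_univ _, hT.1, hd⟩⟩
        obtain ⟨T, hT, hmax⟩ := S.exists_max_image m hS
        obtain ⟨hTr, hTd⟩ := (Finset.mem_filter.1 hT).2
        refine ⟨T, hTr, ?_⟩
        intro b T' hT' hd
        refine ⟨hTd, (hm T b).2 ⟨hTr, ?_⟩⟩
        have h1 := (hm T' b).1 hT'
        exact h1.2.trans_le (hmax T' (Finset.mem_filter.2 ⟨Finset.mem_univ _, h1.1, hd⟩))
      · refine ⟨∅, by simp, ?_⟩
        intro b T' hT' hd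
        exact absurd ⟨b, T', hT', hd⟩ hc
    choose ch hch1 hch2 using hex
    apply tree_cover neg ch (s + 1) r B F hch1 _ hB
    rintro y ⟨b, ⟨u, hu, huy⟩, hb2⟩ c hcc hcy
    have hcC : c ∉ C' b := fun h => hb2 c h hcy
    have : ∃ T ∈ D b, Disjoint c T := by
      by_contra hcon
      push Not at hcon
      exact hcC ⟨by omega, hcon⟩
    obtain ⟨T', hT', hd⟩ := this
    obtain ⟨hdis, hchD⟩ := hch2 c b T' hT' hd
    have hnd := hchD.2 u hu
    rw [Finset.not_disjoint_iff] at hnd
    obtain ⟨i, hiu, hiT⟩ := hnd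
    exact ⟨i, hiT, fun hic => Finset.disjoint_left.1 hdis hic hiT, huy i hiu⟩
  · refine ⟨?_, ?_, ?_, ?_⟩
    · intro b c hc
      exact hc.1
    · intro b b' hb c hc
      exact ⟨hc.1, fun T hT => hc.2 T (hDanti b b' hb hT)⟩
    · intro x hx b hb c hc
      simp only [Set.mem_union, not_or] at hx
      have h1 : ∀ u ∈ G b, ∃ i ∈ u, pos i x := by
        rintro u ⟨y, hy, hu⟩
        exact hKpos x hx.1 y (hy.trans_lt hb) u hu
      have h2 : ∃ T ∈ D b, ∀ i ∈ T, pos i x := by
        by_contra hcon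
        push Not at hcon
        refine hx.2 ⟨b, h1, ?_⟩
        intro T hT hT'
        obtain ⟨i, hi, hi'⟩ := hcon T hT
        exact hi' (hT' i hi)
      obtain ⟨T, hT, hTx⟩ := h2
      have := hc.2 T hT
      rw [Finset.not_disjoint_iff] at this
      obtain ⟨i, hic, hiT⟩ := this
      exact ⟨i, hic, hTx i hiT⟩
    · intro y hy b hb
      simp only [Set.mem_union, not_or] at hy
      obtain ⟨u, hu, huy⟩ := hKneg y hy.1
      by_contra hcon
      push Not at hcon
      refine hy.2 ⟨b, ⟨u, ⟨y, hb, hu⟩, huy⟩, ?_⟩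
      intro c hc hc'
      obtain ⟨i, hi, hi'⟩ := hcon c hc
      exact hi' (hc' i hi)

end Pool.Agent.W970.Tri
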